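import Pool.Agent.Lib.MP_1ef7cf_nt_f.RD

/-!
# Assembling the data at the auxiliary primes
-/

set_option linter.unusedSectionVars false

open NumberField IsDedekindDomain nonZeroDivisors IntermediateField

namespace Pool.Agent.STf

open Pool.Agent.ST Pool.Agent.STb Pool.Agent.STd

section alg

variable {K : Type*} [Field K] [Algebra K ℝ] {H F L : IntermediateField K ℝ} {σ₂ : K →+* ℝ}

lemma PF.fibProd (h1 : H ≤ F) (h2 : F ≤ L) [Normal K H] [Normal K F] [FiniteDimensional K F]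
    [FiniteDimensional K L] {e : (L ≃ₐ[K] L) → ℝ} (hP : PF σ₂ h2 e) (σ : H ≃ₐ[K] H) :
    ST.fibProd h1 (pf h2 e 1) σ = pf (h1.trans h2) e σ := by
  rw [← pf_trans h1 h2]
  unfold ST.fibProd
  exact Finset.prod_congr rfl fun τ _ => hP.act τ

end alg

variable {K : Type*} [Field K] [NumberField K] [Algebra K ℝ] {σ₂ : K →+* ℝ}

/-- the norm relation for a pair of primes -/
lemma pf_pair (h2 : Module.finrank ℚ K = 2) (hσ : σ₂ ≠ sg1 K) {n n' : Ideal (𝓞 K)}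
    (hn : n ≠ ⊥) (hn1 : n ≠ ⊤) {q : PrI K} (hq : ¬ q.asIdeal ∣ n) (hn' : n' = n * q.asIdeal)
    {F L M : IntermediateField K ℝ} {ArtL : RayClassGroup σ₂ n ≃* (L ≃ₐ[K] L)}
    {ArtM : RayClassGroup σ₂ n' ≃* (M ≃ₐ[K] M)}
    (hL : IsRayClassField σ₂ n L ArtL) (hM : IsRayClassField σ₂ n' M ArtM)
    [IsAbelianGalois K F] [FiniteDimensional K L] [IsAbelianGalois K L]
    [FiniteDimensional K M] (hFL : F ≤ L) (hLM : L ≤ M)
    (hP : PF σ₂ hFL (ez σ₂ n ArtL)) :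
    pf (hFL.trans hLM) (ez σ₂ n' ArtM) 1 = pf hFL (ez σ₂ n ArtL) 1 /
      act (res hFL (ArtL (cls σ₂ n (prJ n q hq))))⁻¹ (pf hFL (ez σ₂ n ArtL) 1) := by
  rw [← pf_trans hFL hLM, hP.act, ← map_inv, pf_mul]
  unfold pf
  rw [← Finset.prod_div_distrib]
  refine Finset.prod_congr rfl fun δ _ => ?_
  have h1 := pf_prime h2 hσ hn hn1 hq hn' hL hM hLM δ
  rw [mul_comm' δ] at h1
  exact h1

theorem assembleR {m : Ideal (𝓞 K)} {H : IntermediateField K ℝ}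
    {Art : RayClassGroup σ₂ m ≃* (H ≃ₐ[K] H)}
    (h2 : Module.finrank ℚ K = 2) (hσ : σ₂ ≠ sg1 K) (hm : m ≠ ⊥) (hm1 : m ≠ ⊤)
    (hrcf : IsRayClassField σ₂ m H Art) [FiniteDimensional K H] [IsAbelianGalois K H]
    {ι : Type*} (q : ι → PrI K) (hinj : Function.Injective q) (hq : ∀ i, ¬ (q i).asIdeal ∣ m)
    (L : ι → IntermediateField K ℝ)
    (ArtL : ∀ i, RayClassGroup σ₂ (m * (q i).asIdeal) ≃* (L i ≃ₐ[K] L i))
    (hL : ∀ i, IsRayClassField σ₂ (m * (q i).asIdeal) (L i) (ArtL i))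
    (F : ι → IntermediateField K ℝ) (hHF : ∀ i, H ≤ F i) (hFL : ∀ i, F i ≤ L i)
    [∀ i, FiniteDimensional K (L i)] [∀ i, IsAbelianGalois K (L i)]
    [∀ i, FiniteDimensional K (F i)] [∀ i, IsAbelianGalois K (F i)]
    (hPF : ∀ i, PF σ₂ (hFL i) (ez σ₂ (m * (q i).asIdeal) (ArtL i)))
    (hAS : ∀ i, AS K (pf (hFL i) (ez σ₂ (m * (q i).asIdeal) (ArtL i)) 1))
    (heven : ∀ i, Even (fib (hHF i) (1 : H ≃ₐ[K] H)).card)
    (hgen : Subgroup.closure {σ | ∃ i j, i ≠ j ∧ Art (cls σ₂ m (prJ m (q i) (hq i))) = σ ∧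
      Art (cls σ₂ m (prJ m (q j) (hq j))) = σ} = ⊤)
    (R : ι → ι → Prop) (hRne : ∀ i j, R i j → i ≠ j)
    (hgenR : ∀ i, Subgroup.closure {σ | ∃ j, R i j ∧ Art (cls σ₂ m (prJ m (q j) (hq j))) = σ} = ⊤)
    (hpair : ∀ i j, R i j → ∃ (M : IntermediateField K ℝ)
      (ArtM : RayClassGroup σ₂ (m * (q i).asIdeal * (q j).asIdeal) ≃* (M ≃ₐ[K] M))
      (_ : IsRayClassField σ₂ (m * (q i).asIdeal * (q j).asIdeal) M ArtM)
      (_ : FiniteDimensional K M) (_ : IsAbelianGalois K M)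
      (_ : IsAbelianGalois K (F i ⊔ F j : IntermediateField K ℝ))
      (hle : F i ⊔ F j ≤ M),
        PF σ₂ hle (ez σ₂ (m * (q i).asIdeal * (q j).asIdeal) ArtM) ∧
        AS K (pf hle (ez σ₂ (m * (q i).asIdeal * (q j).asIdeal) ArtM) 1)) : StarkTate σ₂ m := by
  classical
  have hne : ∀ i, m * (q i).asIdeal ≠ ⊥ := fun i => mul_ne_bot' hm (q i).ne_bot
  have hle : ∀ i, m * (q i).asIdeal ≤ m := fun i => Ideal.mul_le_left
  have hHL : ∀ i, H ≤ L i := fun i => (hHF i).trans (hFL i)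
  let φ : ι → (H ≃ₐ[K] H) := fun i => Art (cls σ₂ m (prJ m (q i) (hq i)))
  let x : ι → ℝ := fun i => pf (hFL i) (ez σ₂ (m * (q i).asIdeal) (ArtL i)) 1
  have hx : ∀ i, IsStarkUnit σ₂ (F i) (x i) := fun i => isStarkUnit_of_isSU (hPF i).su (hAS i)
  have hnorm : ∀ i σ, fibProd (hHF i) (x i) σ =
      ez σ₂ m Art σ / ez σ₂ m Art (σ * (φ i)⁻¹) := by
    intro i σ
    rw [(hPF i).fibProd (hHF i) (hFL i)]
    exact pf_prime h2 hσ hm hm1 (hq i) rfl hrcf (hL i) (hHL i) σ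
  have hinf : ∀ i j, i ≠ j → F i ⊓ F j ≤ H := by
    intro i j hij
    have hij' : q i ≠ q j := fun h => hij (hinj h)
    exact (inf_le_inf (hFL i) (hFL j)).trans (inf_le' hm hij' (hq j) rfl rfl hrcf (hL i) (hL j))
  -- the data for pairs
  have hpair' : ∀ i j, R i j → ∃ U : ℝ, U ∈ (F i ⊔ F j : IntermediateField K ℝ) ∧ 0 ≤ U ∧
      IsAbelianGalois K (sqrtExt (F i ⊔ F j) U) ∧
      (∃ Φj : F i ≃ₐ[K] F i, res (hHF i) Φj = φ j ∧
        fibProd (le_sup_left : F i ≤ F i ⊔ F j) U 1 = x i / act Φj⁻¹ (x i)) ∧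
      (∃ Φi : F j ≃ₐ[K] F j, res (hHF j) Φi = φ i ∧
        fibProd (le_sup_right : F j ≤ F i ⊔ F j) U 1 = x j / act Φi⁻¹ (x j)) := by
    intro i j hR
    have hij := hRne i j hR
    have hij' : q i ≠ q j := fun h => hij (hinj h)
    obtain ⟨M, ArtM, hM, hMfd, hMab, hsab, hsup, hMP, hZ⟩ := hpair i j hR
    have hneM : m * (q i).asIdeal * (q j).asIdeal ≠ ⊥ := mul_ne_bot' (hne i) (q j).ne_bot
    have hMi : m * (q i).asIdeal * (q j).asIdeal ≤ m * (q i).asIdeal := Ideal.mul_le_left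
    have hMj : m * (q i).asIdeal * (q j).asIdeal ≤ m * (q j).asIdeal := by
      rw [mul_right_comm]; exact Ideal.mul_le_left
    have hLiM : L i ≤ M := IsRCF.le hMi hneM Set.finite_empty Set.finite_empty hM.isRCF
      (hL i).isRCF
    have hLjM : L j ≤ M := IsRCF.le hMj hneM Set.finite_empty Set.finite_empty hM.isRCF
      (hL j).isRCF
    have hti : m * (q i).asIdeal ≠ ⊤ := ne_top_of_le_ne_top hm1 (hle i)
    have htj : m * (q j).asIdeal ≠ ⊤ := ne_top_of_le_ne_top hm1 (hle j)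
    have ndj : ¬ (q j).asIdeal ∣ m * (q i).asIdeal := not_dvd_mul_prime (hq j) (Ne.symm hij')
    have ndi : ¬ (q i).asIdeal ∣ m * (q j).asIdeal := not_dvd_mul_prime (hq i) hij'
    refine ⟨pf hsup (ez σ₂ _ ArtM) 1, hMP.su.mem, hMP.su.pos'.le, hZ.ab, ?_, ?_⟩
    · refine ⟨res (hFL i) (ArtL i (cls σ₂ _ (prJ _ (q j) ndj))), ?_, ?_⟩
      · rw [res_res (hHF i) (hFL i)]
        rw [IsRCF.res_art (hle i) (hne i) Set.finite_empty Set.finite_empty (hL i).isRCF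
          hrcf.isRCF]
        rfl
      · rw [hMP.fibProd le_sup_left hsup]
        exact pf_pair h2 hσ (hne i) hti ndj rfl (hL i) hM (hFL i) hLiM (hPF i)
    · refine ⟨res (hFL j) (ArtL j (cls σ₂ _ (prJ _ (q i) ndi))), ?_, ?_⟩
      · rw [res_res (hHF j) (hFL j)]
        rw [IsRCF.res_art (hle j) (hne j) Set.finite_empty Set.finite_empty (hL j).isRCF
          hrcf.isRCF]
        rfl
      · rw [hMP.fibProd le_sup_right hsup]
        exact pf_pair h2 hσ (hne j) htj ndi (mul_right_comm _ _ _) (hL j) hM (hFL j) hLjM (hPF j)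
  obtain ⟨hs, hact⟩ := core' σ₂ (ez σ₂ m Art) (fun σ => ez_pos σ) (ez_prod h2 hσ hm hm1 Art)
    φ F hHF x hx heven hnorm hinf hgen R hRne hgenR hpair'
  have hdn : STData σ₂ m H Art (ez σ₂ m Art 1) := by
    refine ⟨hrcf, hs, fun A => ?_⟩
    rw [hact, ez_art]
  exact hdn.starkTate h2 hσ hm hm1

end Pool.Agent.STf
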