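import Pool.Agent.Lib.MP_1ef7cf_nt_f.RD

/-!
# The hypotheses; Frobenius elements and square roots
-/

set_option linter.unusedSectionVars false

open NumberField IsDedekindDomain nonZeroDivisors IntermediateField

namespace Pool.Agent.STf

open Pool.Agent.ST Pool.Agent.STb Pool.Agent.STd

variable {K : Type*} [Field K] [NumberField K] [Algebra K ℝ]

/-- The hypotheses at the multiples of `m` prime to `v`. -/
structure HypR (σ₂ : K →+* ℝ) (m : Ideal (𝓞 K)) (v : PrI K) : Prop where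
  h2 : Module.finrank ℚ K = 2
  hσ : σ₂ ≠ sg1 K
  hm : m ≠ ⊥
  hm1 : m ≠ ⊤
  hv : ¬ v.asIdeal ∣ m
  stark : ∀ n : Ideal (𝓞 K), n ≠ ⊥ → n ≤ m → ¬ v.asIdeal ∣ n → ∃ (H : IntermediateField K ℝ)
    (Art : RayClassGroup σ₂ n ≃* (H ≃ₐ[K] H)), RData σ₂ n H Art
  tate : ∀ n : Ideal (𝓞 K), n ≠ ⊥ → n ≤ m → ¬ v.asIdeal ∣ n → StarkTate σ₂ (n * v.asIdeal)

variable {σ₂ : K →+* ℝ} {m n : Ideal (𝓞 K)} {v q : PrI K}

lemma HypR.mono (h : HypR σ₂ m v) (hn : n ≠ ⊥) (hnm : n ≤ m) (hv : ¬ v.asIdeal ∣ n) :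
    HypR σ₂ n v :=
  ⟨h.h2, h.hσ, hn, ne_top_of_le_ne_top h.hm1 hnm, hv,
    fun n' h1 h2 h3 => h.stark n' h1 (h2.trans hnm) h3,
    fun n' h1 h2 h3 => h.tate n' h1 (h2.trans hnm) h3⟩

lemma HypR.mul (h : HypR σ₂ m v) (hq : q ≠ v) : HypR σ₂ (m * q.asIdeal) v :=
  h.mono (mul_ne_bot' h.hm q.ne_bot) Ideal.mul_le_left (not_dvd_mul_prime h.hv hq.symm)

section

variable {H H' : IntermediateField K ℝ} {Art : RayClassGroup σ₂ m ≃* (H ≃ₐ[K] H)}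

omit [NumberField K] in
lemma as_frob_of_norm' [FiniteDimensional K H] [IsAbelianGalois K H] {e : (H ≃ₐ[K] H) → ℝ}
    (hR : Ratio σ₂ H e) {σ : H ≃ₐ[K] H} (h : AS K (e 1 / e σ⁻¹)) : AS K (e σ / e 1) := by
  have h1 : σ⁻¹ ∈ sgR hR := by
    rw [mem_sgR]
    have := h.inv
    rwa [inv_div] at this
  have h2 := (sgR hR).inv_mem h1
  rw [inv_inv, mem_sgR] at h2
  exact h2

theorem frob_mem_sgR (h2 : Module.finrank ℚ K = 2) (hσ : σ₂ ≠ sg1 K) (hm : m ≠ ⊥) (hm1 : m ≠ ⊤)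
    (hv : ¬ v.asIdeal ∣ m) (hst : StarkTate σ₂ (m * v.asIdeal))
    (hd : RData σ₂ m H Art) :
    AS K (ez σ₂ m Art (Art (cls σ₂ m (prJ m v hv))) / ez σ₂ m Art 1) := by
  obtain ⟨Hv, Artv, w, hw⟩ := hst.data
  have := hd.rcf.finite
  have := hw.rcf.finite
  have : IsAbelianGalois K H := hd.rcf.isRCF.abelian
  have : IsAbelianGalois K Hv := hw.rcf.isRCF.abelian
  have hle' : m * v.asIdeal ≤ m := Ideal.mul_le_left
  have hne' : m * v.asIdeal ≠ ⊥ := mul_ne_bot' hm v.ne_bot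
  have hle : H ≤ Hv := IsRCF.le hle' hne' Set.finite_empty Set.finite_empty hw.rcf.isRCF
    hd.rcf.isRCF
  have hASw : AS K w := as_of_ab hw.stark.mem (by
    have := hw.stark.pos 1
    rw [act_one_left hw.stark.mem] at this
    exact this.le) hw.stark.ab
  have h1 : AS K (fibProd hle w 1) := AS.fibProd hle hw.stark.mem hw.stark.pos hASw 1
  have he : ∀ γ, act γ w = ez σ₂ (m * v.asIdeal) Artv γ := by
    intro γ
    obtain ⟨A, rfl⟩ := Artv.surjective γ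
    rw [hw.act, ez_art]
  rw [← pf_act hle he, pf_prime h2 hσ hm hm1 hv rfl hd.rcf hw.rcf hle, one_mul] at h1
  exact as_frob_of_norm' hd.ratio h1

/-- existence of the generator -/
theorem exists_betaR (h : HypR σ₂ m v) : ∃ (f : ℕ) (β : 𝓞 K), f ≠ 0 ∧
    Ideal.span {β} = v.asIdeal ^ f ∧ β - 1 ∈ m ∧ 0 < σ₂ (β : K) := by
  obtain ⟨H, Art, hd⟩ := h.stark m h.hm le_rfl h.hv
  have := hd.rcf.finite
  have : Finite (RayClassGroup σ₂ m) := Finite.of_equiv _ Art.symm.toEquiv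
  have hfin : 0 < orderOf (cls σ₂ m (prJ m v h.hv)) := orderOf_pos _
  have h1 := pow_orderOf_eq_one (cls σ₂ m (prJ m v h.hv))
  rw [← map_pow, cls_eq_one_iff] at h1
  obtain ⟨α, hα1, hα2, hα3⟩ := h1
  rw [Subgroup.coe_pow, Units.val_pow_eq_pow_val, coe_prJ, ← FractionalIdeal.coeIdeal_pow] at hα3
  obtain ⟨x, hx1, hx2, hx3⟩ := int_of_coe_eq hα1 hα3
  exact ⟨_, x, hfin.ne', hx3.symm, hx2, by rw [hx1]; exact hα2⟩

theorem frob_mem_of_evenR (h : HypR σ₂ m v) (hq : ¬ q.asIdeal ∣ m) (hqv : q ≠ v)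
    (_hq2 : (2 : 𝓞 K) ∉ q.asIdeal) (hd : RData σ₂ m H Art) {N f : ℕ} {β : 𝓞 K}
    (hβ : Ideal.span {β} = v.asIdeal ^ f) (hβ1 : β - 1 ∈ m) (hβ2 : 0 < σ₂ (β : K))
    (hun : ∀ w : (𝓞 K)ˣ, EU σ₂ m w →
      ∃ y : 𝓞 K ⧸ q.asIdeal, y ^ (2 ^ N) = Ideal.Quotient.mk _ (w : 𝓞 K))
    (hβq : ¬ ∃ y : 𝓞 K ⧸ q.asIdeal, y ^ (2 ^ N) = Ideal.Quotient.mk _ β) :
    AS K (ez σ₂ m Art (Art (cls σ₂ m (prJ m q hq))) / ez σ₂ m Art 1) := by
  have hle' : m * q.asIdeal ≤ m := Ideal.mul_le_left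
  have hne' : m * q.asIdeal ≠ ⊥ := mul_ne_bot' h.hm q.ne_bot
  have hne1 : m * q.asIdeal ≠ ⊤ := ne_top_of_le_ne_top h.hm1 hle'
  have hvq : ¬ v.asIdeal ∣ m * q.asIdeal := not_dvd_mul_prime h.hv hqv.symm
  obtain ⟨H', Art', hd'⟩ := h.stark _ hne' hle' hvq
  have := hd.rcf.finite
  have := hd'.rcf.finite
  have : IsAbelianGalois K H := hd.rcf.isRCF.abelian
  have : IsAbelianGalois K H' := hd'.rcf.isRCF.abelian
  have hle : H ≤ H' := IsRCF.le hle' hne' Set.finite_empty Set.finite_empty hd'.rcf.isRCF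
    hd.rcf.isRCF
  -- the class of `β`
  set J : primeTo (K := K) (m * q.asIdeal) := (prJ (m * q.asIdeal) v hvq) ^ f with hJdef
  have hJ : ((J : (FI K)ˣ) : FI K) = (Ideal.span {β} : Ideal (𝓞 K)) := by
    rw [hJdef, Subgroup.coe_pow, Units.val_pow_eq_pow_val, coe_prJ,
      ← FractionalIdeal.coeIdeal_pow, hβ]
  set g : H' ≃ₐ[K] H' := Art' (cls σ₂ (m * q.asIdeal) J) with hg
  have hgpow : ∀ k : ℕ, g ^ k = 1 ↔ ∃ w : (𝓞 K)ˣ, EU σ₂ m w ∧ β ^ k - (w : 𝓞 K) ∈ q.asIdeal := by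
    intro k
    rw [← cls_pow_eq_one h.hm hq hβ1 hβ2 hJ, hg, ← map_pow, ← map_one Art', Art'.injective.eq_iff]
  have hgv : g = (Art' (cls σ₂ _ (prJ (m * q.asIdeal) v hvq))) ^ f := by
    rw [hg, hJdef, map_pow, map_pow]
  have hgres : res hle g = 1 := by
    rw [hg, IsRCF.res_art hle' hne' Set.finite_empty Set.finite_empty hd'.rcf.isRCF hd.rcf.isRCF,
      pr_cls]
    have h4 : cls σ₂ m (inc hle' J) = 1 := by
      rw [cls_eq_one_iff, coe_inc]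
      exact ⟨β, oneMod_of_sub_one_mem hβ1, hβ2, by rw [hJ, coe_span_singleton]⟩
    rw [h4, map_one]
  -- the order is even
  have hpos : 0 < orderOf g := orderOf_pos g
  have heven : Even (orderOf g) := by
    by_contra hodd
    rw [Nat.not_even_iff_odd] at hodd
    obtain ⟨w, hw1, hw2⟩ := (hgpow _).1 (pow_orderOf_eq_one g)
    obtain ⟨y, hy⟩ := hun w hw1
    have := q.isMaximal
    let _ : Field (𝓞 K ⧸ q.asIdeal) := Ideal.Quotient.field q.asIdeal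
    have hb0 : Ideal.Quotient.mk q.asIdeal β ≠ 0 := by
      intro h0
      rw [Ideal.Quotient.eq_zero_iff_mem, ← Ideal.span_singleton_le_iff_mem, hβ,
        ← Ideal.dvd_iff_le] at h0
      exact hqv (eq_of_dvd_prime (q.prime.dvd_of_dvd_pow h0))
    apply hβq
    refine pow_two_of_odd hb0 hodd (y := y) ?_
    rw [hy, ← map_pow]
    exact Ideal.Quotient.eq.2 hw2
  obtain ⟨j, hj⟩ := heven
  have hτ : g ^ j ≠ 1 := by
    intro h1
    have h3 := orderOf_dvd_of_pow_eq_one h1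
    have h4 := Nat.le_of_dvd (by omega) h3
    omega
  have hτ2 : g ^ j * g ^ j = 1 := by
    rw [← pow_add, ← hj, pow_orderOf_eq_one]
  have hτF : res hle (g ^ j) = 1 := by rw [map_pow, hgres, one_pow]
  have hmem : g ^ j ∈ sgR hd'.ratio := by
    rw [hgv, ← pow_mul]
    apply Subgroup.pow_mem
    rw [mem_sgR]
    exact frob_mem_sgR h.h2 h.hσ hne' hne1 hvq (h.tate _ hne' hle' hvq) hd'
  rw [mem_sgR] at hmem
  have h5 := as_pf_of_inv hle hd'.ratio (ez_prod h.h2 h.hσ hne' hne1 Art') hτ hτ2 hτF hmem 1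
  rw [pf_prime h.h2 h.hσ h.hm h.hm1 hq rfl hd.rcf hd'.rcf hle, one_mul] at h5
  exact as_frob_of_norm' hd.ratio h5

end

end Pool.Agent.STf
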