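import Pool.Agent.Lib.MP_1ef7cf_nt_f.RD

/-!
# Ratios of ratios
-/

set_option linter.unusedSectionVars false

open NumberField IsDedekindDomain nonZeroDivisors IntermediateField

namespace Pool.Agent.STf

open Pool.Agent.ST Pool.Agent.STb Pool.Agent.STd

section alg

variable {K : Type*} [Field K] [Algebra K ℝ] {H F L : IntermediateField K ℝ} {σ₂ : K →+* ℝ}

lemma ratio_mul {f g : (H ≃ₐ[K] H) → ℝ} (hf : Ratio σ₂ H f) (hg : Ratio σ₂ H g) :
    Ratio σ₂ H (fun σ => f σ * g σ) := by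
  refine ⟨fun σ => mul_pos (hf.pos σ) (hg.pos σ), fun σ τ => ?_, fun ρ σ τ => ?_,
    fun σ τ => ?_, fun g' hg' σ τ => ?_⟩
  · rw [mul_div_mul_comm]
    exact mul_mem (hf.mem _ _) (hg.mem _ _)
  · rw [mul_div_mul_comm, act_mul _ (hf.mem _ _) (hg.mem _ _), hf.act, hg.act, mul_div_mul_comm]
  · rw [mul_div_mul_comm]
    exact (hf.int _ _).mul (hg.int _ _)
  · rw [mul_div_mul_comm, emb_mul _ (hf.mem _ _) (hg.mem _ _), norm_mul, hf.abs g' hg',
      hg.abs g' hg', one_mul]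

lemma ratio_inv {f : (H ≃ₐ[K] H) → ℝ} (hf : Ratio σ₂ H f) :
    Ratio σ₂ H (fun σ => (f σ)⁻¹) := by
  refine ⟨fun σ => inv_pos.2 (hf.pos σ), fun σ τ => ?_, fun ρ σ τ => ?_,
    fun σ τ => ?_, fun g' hg' σ τ => ?_⟩
  · rw [inv_div_inv]
    exact hf.mem _ _
  · rw [inv_div_inv, hf.act, inv_div_inv]
  · rw [inv_div_inv]
    exact hf.int _ _
  · rw [inv_div_inv]
    exact hf.abs g' hg' _ _

lemma ratio_trans {f : (H ≃ₐ[K] H) → ℝ} (hf : Ratio σ₂ H f) (a : H ≃ₐ[K] H) :
    Ratio σ₂ H (fun σ => f (σ * a)) := by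
  refine ⟨fun σ => hf.pos _, fun σ τ => hf.mem _ _, fun ρ σ τ => ?_,
    fun σ τ => hf.int _ _, fun g' hg' σ τ => hf.abs g' hg' _ _⟩
  rw [hf.act, mul_assoc, mul_assoc]

lemma ratio_one : Ratio σ₂ H (fun _ => 1) := by
  refine ⟨fun σ => one_pos, fun σ τ => ?_, fun ρ σ τ => ?_,
    fun σ τ => ?_, fun g' hg' σ τ => ?_⟩
  · rw [div_one]; exact one_mem _
  · rw [div_one, act_one_right]
  · rw [div_one]; exact isIntegral_one
  · rw [div_one, emb_one, norm_one]

lemma ratio_prod {ι : Type*} (s : Finset ι) {f : ι → (H ≃ₐ[K] H) → ℝ}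
    (hf : ∀ i ∈ s, Ratio σ₂ H (f i)) : Ratio σ₂ H (fun σ => ∏ i ∈ s, f i σ) := by
  classical
  induction s using Finset.induction_on with
  | empty => simpa using ratio_one
  | insert a s ha ih =>
    simp only [Finset.prod_insert ha]
    exact ratio_mul (hf a (Finset.mem_insert_self a s))
      (ih fun i hi => hf i (Finset.mem_insert_of_mem hi))

/-- descent -/
lemma ratio_desc (h : F ≤ L) [Normal K F] [FiniteDimensional K L] [IsGalois K L]
    {f : (F ≃ₐ[K] F) → ℝ} (hR : Ratio σ₂ L (fun δ => f (res h δ))) : Ratio σ₂ F f := by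
  have hmem : ∀ σ τ, f σ / f τ ∈ F := by
    intro σ τ
    obtain ⟨a, rfl⟩ := res_surjective h σ
    obtain ⟨b, rfl⟩ := res_surjective h τ
    apply mem_of_fixed h (hR.mem a b)
    intro γ hγ
    rw [hR.act, map_mul, map_mul, (res_eq_one_iff h γ).2 hγ, one_mul, one_mul]
  refine ⟨?_, hmem, ?_, ?_, ?_⟩
  · intro σ
    obtain ⟨a, rfl⟩ := res_surjective h σ
    exact hR.pos a
  · intro ρ σ τ
    obtain ⟨d, rfl⟩ := res_surjective h ρ
    obtain ⟨a, rfl⟩ := res_surjective h σ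
    obtain ⟨b, rfl⟩ := res_surjective h τ
    rw [act_res h d (hmem _ _), hR.act, map_mul, map_mul]
  · intro σ τ
    obtain ⟨a, rfl⟩ := res_surjective h σ
    obtain ⟨b, rfl⟩ := res_surjective h τ
    exact hR.int a b
  · intro g hg σ τ
    obtain ⟨a, rfl⟩ := res_surjective h σ
    obtain ⟨b, rfl⟩ := res_surjective h τ
    obtain ⟨g', hg'⟩ := exists_extend g h
    have hov : Over σ₂ g' := by
      intro a
      rw [← hg a]
      have h3 := hg' (algebraMap K ℝ a) (F.algebraMap_mem a)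
      rw [emb_of_mem _ (F.algebraMap_mem a), emb_of_mem _ (L.algebraMap_mem a)] at h3
      exact h3
    rw [← hg' _ (hmem _ _)]
    exact hR.abs g' hov a b

/-- the products over the fibres -/
lemma ratio_pf (h : F ≤ L) [Normal K F] [FiniteDimensional K L] [IsAbelianGalois K L]
    {e : (L ≃ₐ[K] L) → ℝ} (hR : Ratio σ₂ L e) : Ratio σ₂ F (pf h e) := by
  apply ratio_desc h
  have h1 : (fun δ => pf h e (res h δ)) =
      fun δ => ∏ γ ∈ fib h (1 : F ≃ₐ[K] F), e (δ * γ) := funext fun δ => pf_mul h e δ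
  rw [h1]
  exact ratio_prod _ fun γ _ => ratio_trans hR γ

lemma prod_pf (h : F ≤ L) [Normal K F] [FiniteDimensional K F] [FiniteDimensional K L]
    (e : (L ≃ₐ[K] L) → ℝ) : ∏ σ, pf h e σ = ∏ γ, e γ := by
  classical
  unfold pf
  rw [← Finset.prod_fiberwise_of_maps_to (s := Finset.univ) (t := Finset.univ) (g := res h)
    (fun _ _ => Finset.mem_univ _)]
  refine Finset.prod_congr rfl fun σ _ => Finset.prod_congr ?_ fun _ _ => rfl
  ext γ
  rw [Finset.mem_filter, mem_fib]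
  simp

/-- all the differences -/
lemma ratio_diff {e : (H ≃ₐ[K] H) → ℝ} (epos : ∀ σ, 0 < e σ) {S : Set (H ≃ₐ[K] H)}
    (hS : Subgroup.closure S = ⊤) (h : ∀ φ ∈ S, Ratio σ₂ H (fun σ => e σ / e (σ * φ⁻¹)))
    (a : H ≃ₐ[K] H) : Ratio σ₂ H (fun σ => e σ / e (σ * a)) := by
  have e0 : ∀ σ, e σ ≠ 0 := fun σ => (epos σ).ne'
  let T : Subgroup (H ≃ₐ[K] H) :=
    { carrier := {φ | Ratio σ₂ H (fun σ => e σ / e (σ * φ⁻¹))}
      mul_mem' := by
        intro φ ψ hφ hψ
        have h1 := ratio_mul hψ (ratio_trans hφ ψ⁻¹)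
        have h2 : (fun σ => e σ / e (σ * (φ * ψ)⁻¹)) =
            fun σ => e σ / e (σ * ψ⁻¹) * (e (σ * ψ⁻¹) / e (σ * ψ⁻¹ * φ⁻¹)) := by
          funext σ
          rw [div_mul_div_cancel₀ (e0 _), mul_inv_rev, mul_assoc]
        change Ratio σ₂ H (fun σ => e σ / e (σ * (φ * ψ)⁻¹))
        rw [h2]
        exact h1
      one_mem' := by
        have h2 : (fun σ => e σ / e (σ * (1 : H ≃ₐ[K] H)⁻¹)) = fun _ => (1 : ℝ) := by
          funext σ
          rw [inv_one, mul_one, div_self (e0 _)]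
        change Ratio σ₂ H (fun σ => e σ / e (σ * (1 : H ≃ₐ[K] H)⁻¹))
        rw [h2]
        exact ratio_one
      inv_mem' := by
        intro φ hφ
        have h1 := ratio_inv (ratio_trans hφ φ)
        have h2 : (fun σ => e σ / e (σ * (φ⁻¹)⁻¹)) =
            fun σ => (e (σ * φ) / e (σ * φ * φ⁻¹))⁻¹ := by
          funext σ
          rw [inv_inv, inv_div, mul_inv_cancel_right]
        change Ratio σ₂ H (fun σ => e σ / e (σ * (φ⁻¹)⁻¹))
        rw [h2]
        exact h1 }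
  have h3 : T = ⊤ := by
    rw [eq_top_iff, ← hS, Subgroup.closure_le]
    exact h
  have h4 : a⁻¹ ∈ T := by rw [h3]; exact Subgroup.mem_top _
  have h5 : Ratio σ₂ H (fun σ => e σ / e (σ * (a⁻¹)⁻¹)) := h4
  rwa [inv_inv] at h5

/-- complex conjugation does not depend on the numbers -/
lemma exists_C' (σ₂ : K →+* ℝ) (H : IntermediateField K ℝ) [FiniteDimensional K H]
    [IsAbelianGalois K H] : ∃ C : H ≃ₐ[K] H, ∀ e : (H ≃ₐ[K] H) → ℝ, Ratio σ₂ H e →
      ∏ σ, e σ = 1 → ∀ σ, e σ * e (C * σ) = 1 := by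
  obtain ⟨g, hg⟩ := exists_over (H := H) σ₂
  obtain ⟨C, hC⟩ := exists_conj hg
  refine ⟨C, fun e h eprod => ?_⟩
  have e0 : ∀ σ, e σ ≠ 0 := fun σ => (h.pos σ).ne'
  have habs : ∀ x ∈ H, ‖emb g x‖ = 1 → x * Pool.Agent.ST.act C x = 1 := by
    intro x hx h
    apply emb_inj g (mul_mem hx (act_mem C hx)) (one_mem _)
    rw [emb_mul g hx (act_mem C hx), hC x hx, Complex.mul_conj, Complex.normSq_eq_norm_sq, h,
      emb_one]
    simp
  have hκ : ∀ σ, e σ * e (C * σ) = e 1 * e C := by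
    intro σ
    have h1 := habs _ (h.mem σ 1) (h.abs g hg σ 1)
    rw [h.act C σ 1, mul_one] at h1
    have h2 := e0 1
    have h3 := e0 C
    field_simp at h1
    linarith
  have hκ1 : e 1 * e C = 1 := by
    have h1 : ∏ σ : H ≃ₐ[K] H, (e σ * e (C * σ)) = 1 := by
      rw [Finset.prod_mul_distrib, eprod, one_mul]
      rw [← eprod]
      exact Fintype.prod_equiv (Equiv.mulLeft C) _ _ (fun σ => rfl)
    rw [Finset.prod_congr rfl fun σ _ => hκ σ, Finset.prod_const] at h1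
    have h2 : (0 : ℝ) ≤ e 1 * e C := (mul_pos (h.pos 1) (h.pos C)).le
    exact (pow_eq_one_iff_of_nonneg h2 (by
      rw [Finset.card_univ]; exact Fintype.card_ne_zero)).1 h1
  exact fun σ => by rw [hκ, hκ1]

/-- antisymmetry, from the differences -/
lemma exists_C_diff [FiniteDimensional K H] [IsAbelianGalois K H] {e : (H ≃ₐ[K] H) → ℝ}
    (epos : ∀ σ, 0 < e σ) (eprod : ∏ σ, e σ = 1)
    (hD : ∀ a, Ratio σ₂ H (fun σ => e σ / e (σ * a))) :
    ∃ C : H ≃ₐ[K] H, ∀ σ, e σ * e (C * σ) = 1 := by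
  obtain ⟨C, hC⟩ := exists_C' σ₂ H
  refine ⟨C, ?_⟩
  have e0 : ∀ σ, e σ ≠ 0 := fun σ => (epos σ).ne'
  have hκ : ∀ a, e a * e (C * a) = e 1 * e C := by
    intro a
    have h1 : ∏ σ, (e σ / e (σ * a)) = 1 := by
      rw [Finset.prod_div_distrib, eprod]
      have h2 : ∏ σ, e (σ * a) = 1 := by
        rw [← eprod]
        exact Fintype.prod_equiv (Equiv.mulRight a) _ _ (fun σ => rfl)
      rw [h2, div_one]
    have h2 := hC _ (hD a) h1 1
    simp only [one_mul, mul_one] at h2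
    have h3 := e0 a
    have h4 := e0 (C * a)
    field_simp at h2
    linarith
  have hκ1 : e 1 * e C = 1 := by
    have h1 : ∏ σ : H ≃ₐ[K] H, (e σ * e (C * σ)) = 1 := by
      rw [Finset.prod_mul_distrib, eprod, one_mul]
      rw [← eprod]
      exact Fintype.prod_equiv (Equiv.mulLeft C) _ _ (fun σ => rfl)
    rw [Finset.prod_congr rfl fun σ _ => hκ σ, Finset.prod_const] at h1
    have h2 : (0 : ℝ) ≤ e 1 * e C := (mul_pos (epos 1) (epos C)).le
    exact (pow_eq_one_iff_of_nonneg h2 (by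
      rw [Finset.card_univ]; exact Fintype.card_ne_zero)).1 h1
  exact fun σ => by rw [hκ, hκ1]

end alg

variable {K : Type*} [Field K] [NumberField K] [Algebra K ℝ] {H F L : IntermediateField K ℝ}
  {σ₂ : K →+* ℝ} {m : Ideal (𝓞 K)}

/-- the products over the fibres, for an extension of degree divisible by `4` -/
theorem pf_of_four (h : H ≤ L) [FiniteDimensional K H] [IsAbelianGalois K H]
    [FiniteDimensional K L] [IsAbelianGalois K L] {e : (L ≃ₐ[K] L) → ℝ} (epos : ∀ σ, 0 < e σ)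
    (eprod : ∏ σ, e σ = 1) (hD : ∀ a, Ratio σ₂ L (fun σ => e σ / e (σ * a)))
    (h4 : 4 ∣ (fib h (1 : H ≃ₐ[K] H)).card) : PF σ₂ h e := by
  classical
  obtain ⟨C, hC⟩ := exists_C_diff epos eprod hD
  have e0 : ∀ σ, e σ ≠ 0 := fun σ => (epos σ).ne'
  obtain ⟨τ, hτ, hτ2, hτH⟩ := exists_involution h (by
    obtain ⟨k, hk⟩ := h4
    exact ⟨2 * k, by omega⟩)
  set F : IntermediateField K ℝ := IntermediateField.lift
    (IntermediateField.fixedField (Subgroup.zpowers τ)) with hF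
  have hFL : F ≤ L := IntermediateField.lift_le _
  have hFab : IsAbelianGalois K F := isAbelianGalois_of_le hFL
  have hFfd : FiniteDimensional K F := fd_of_le hFL
  have hHF : H ≤ F := by
    intro x hx
    refine (mem_lift_fixedField _ (h hx)).2 ?_
    intro σ hσ
    have h1 : res h σ = 1 := by
      obtain ⟨k, rfl⟩ := Subgroup.mem_zpowers_iff.1 hσ
      rw [map_zpow, hτH, one_zpow]
    exact (res_eq_one_iff h σ).1 h1 x hx
  obtain ⟨e1, e2⟩ := fix_involution hτ hτ2 hF hFL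
  have hfib : fib hFL (1 : F ≃ₐ[K] F) = {1, τ} := by
    symm
    apply Finset.eq_of_subset_of_card_le
    · intro γ hγ
      rw [Finset.mem_insert, Finset.mem_singleton] at hγ
      rw [mem_fib]
      rcases hγ with rfl | rfl
      · exact map_one _
      · exact e1
    · rw [e2, Finset.card_pair (Ne.symm hτ)]
  have hR : Ratio σ₂ F (pf hFL e) := by
    apply ratio_desc hFL
    have h1 : (fun δ => pf hFL e (res hFL δ)) =
        fun δ => e (δ * τ) / e (δ * τ * (τ * C)) := by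
      funext δ
      rw [pf_mul, hfib, Finset.prod_pair (Ne.symm hτ), mul_one]
      have h2 : δ * τ * (τ * C) = C * δ := by
        rw [mul_assoc, ← mul_assoc τ τ C, hτ2, one_mul, mul_comm' δ C]
      rw [h2, eq_div_iff (e0 _)]
      have h3 := hC δ
      calc e δ * e (δ * τ) * e (C * δ) = (e δ * e (C * δ)) * e (δ * τ) := by ring
        _ = e (δ * τ) := by rw [h3, one_mul]
    rw [h1]
    exact ratio_trans (hD (τ * C)) τ
  have hev : Even (fib hHF (1 : H ≃ₐ[K] H)).card := by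
    have e3 := card_fib_mul hHF hFL
    rw [e2] at e3
    obtain ⟨k, hk⟩ := h4
    have e4 : (fib (hHF.trans hFL) (1 : H ≃ₐ[K] H)).card = 4 * k := hk
    exact ⟨k, by omega⟩
  have hP := PF.of_even hHF hR (by rw [prod_pf, eprod]) hev
  have h1 : ∀ σ, pf hHF (pf hFL e) σ = pf h e σ := fun σ => pf_trans hHF hFL e σ
  have h5 := hP.su
  have h6 := hP.act
  rw [h1] at h5
  refine ⟨h5, fun τ => ?_⟩
  have h7 := h6 τ
  rwa [h1, h1] at h7


end Pool.Agent.STf
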