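import Pool.Agent.Lib.MP_1ef7cf_nt_d.GEN

/-!
# Auxiliary primes with prescribed behaviour of the fundamental unit
-/

set_option linter.unusedSectionVars false

open NumberField IsDedekindDomain nonZeroDivisors IntermediateField

namespace Pool.Agent.STf

open Pool.Agent.ST Pool.Agent.STb Pool.Agent.STd

variable {K : Type*} [Field K] [NumberField K] [Algebra K ℝ]
  {σ₂ : K →+* ℝ} {m : Ideal (𝓞 K)}

/-- the auxiliary primes -/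
structure GoodF (ε₀ : (𝓞 K)ˣ) (q : PrI K) : Prop where
  odd : (2 : 𝓞 K) ∉ q.asIdeal
  dvd : 4 ∣ pn q - 1
  nsq : ¬ IsSquare (Ideal.Quotient.mk q.asIdeal (ε₀ : 𝓞 K))

/-- the units -/
lemma GoodF.pow4 {ε₀ : (𝓞 K)ˣ} (hε₀ : ∀ w : (𝓞 K)ˣ, ∃ k : ℤ, w = ε₀ ^ k ∨ w = -ε₀ ^ k)
    {q : PrI K} (hq : GoodF ε₀ q) {w : (𝓞 K)ˣ} (hw : EU σ₂ q.asIdeal w) :
    ∃ x : (𝓞 K)ˣ, w = x ^ 4 := by
  have := q.isMaximal
  let _ : Field (𝓞 K ⧸ q.asIdeal) := Ideal.Quotient.field q.asIdeal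
  -- `-1` is a square
  have hneg : IsSquare (-1 : 𝓞 K ⧸ q.asIdeal) := by
    obtain ⟨s, hs⟩ := hq.dvd
    have h1 : Ideal.Quotient.mk q.asIdeal (-1 : 𝓞 K) ≠ 0 := by
      rw [map_neg, map_one]
      exact neg_ne_zero.2 one_ne_zero
    have h2 := (exists_pow_iff (q := q) (n := 2) (s := 2 * s) (by norm_num) (by omega) h1).2 (by
      rw [pow_mul, map_neg, map_one, neg_one_sq, one_pow])
    obtain ⟨y, hy⟩ := h2
    refine ⟨y, ?_⟩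
    rw [← pow_two, hy, map_neg, map_one]
  have hsq : ∀ x : 𝓞 K ⧸ q.asIdeal, (x = 1 ∨ x = -1) → IsSquare x := by
    rintro x (rfl | rfl)
    · exact ⟨1, (one_mul 1).symm⟩
    · exact hneg
  -- the quotient map on units
  let f : (𝓞 K)ˣ →* (𝓞 K ⧸ q.asIdeal)ˣ := Units.map (Ideal.Quotient.mk q.asIdeal).toMonoidHom
  have hf : ∀ u : (𝓞 K)ˣ, ((f u : (𝓞 K ⧸ q.asIdeal)ˣ) : 𝓞 K ⧸ q.asIdeal) =
    Ideal.Quotient.mk q.asIdeal (u : 𝓞 K) := fun u => rfl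
  have hodd : ∀ k : ℤ, IsSquare ((f ε₀ ^ k : (𝓞 K ⧸ q.asIdeal)ˣ) : 𝓞 K ⧸ q.asIdeal) → Even k := by
    intro k hk
    by_contra hcon
    rw [Int.not_even_iff_odd] at hcon
    obtain ⟨l, rfl⟩ := hcon
    apply hq.nsq
    obtain ⟨y, hy⟩ := hk
    refine ⟨y * ((f ε₀ ^ (-l) : (𝓞 K ⧸ q.asIdeal)ˣ) : 𝓞 K ⧸ q.asIdeal), ?_⟩
    rw [← hf]
    have h3 : y * ((f ε₀ ^ (-l) : (𝓞 K ⧸ q.asIdeal)ˣ) : 𝓞 K ⧸ q.asIdeal) *
        (y * ((f ε₀ ^ (-l) : (𝓞 K ⧸ q.asIdeal)ˣ) : 𝓞 K ⧸ q.asIdeal)) =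
        ((f ε₀ ^ (2 * l + 1) * (f ε₀ ^ (-l) * f ε₀ ^ (-l)) : (𝓞 K ⧸ q.asIdeal)ˣ) :
          𝓞 K ⧸ q.asIdeal) := by
      rw [Units.val_mul, Units.val_mul, hy]
      ring
    rw [h3, ← zpow_add, ← zpow_add]
    have h4 : 2 * l + 1 + (-l + -l) = 1 := by ring
    rw [h4, zpow_one]
  have hw1 : f w = 1 := by
    apply Units.ext
    rw [hf, Units.val_one, ← map_one (Ideal.Quotient.mk q.asIdeal)]
    exact Ideal.Quotient.eq.2 hw.1
  have hfneg : ∀ u : (𝓞 K)ˣ, f (-u) = -f u := fun u => by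
    apply Units.ext
    rw [hf, Units.val_neg, Units.val_neg, map_neg, hf]
  obtain ⟨k, hk⟩ := hε₀ w
  have hke : Even k := by
    apply hodd
    apply hsq
    rcases hk with hk | hk
    · left
      rw [← map_zpow, ← hk, hw1, Units.val_one]
    · right
      have h5 : f (ε₀ ^ k) = -1 := by
        rw [← neg_inj, ← hfneg, ← hk, hw1, neg_neg]
      rw [← map_zpow, h5, Units.val_neg, Units.val_one]
  obtain ⟨l, rfl⟩ := hke
  rw [← two_mul] at hk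
  have hk' : w = ε₀ ^ (2 * l) := by
    rcases hk with hk | hk
    · exact hk
    · exfalso
      have h6 := hw.2
      have h7 : ((w : 𝓞 K) : K) = -(((ε₀ ^ l : (𝓞 K)ˣ) : 𝓞 K) : K) ^ 2 := by
        rw [hk, mul_comm, zpow_mul, zpow_ofNat, coe_neg_unit, Units.val_pow_eq_pow_val]
        rfl
      rw [h7, map_neg, map_pow] at h6
      nlinarith [sq_nonneg (σ₂ (((ε₀ ^ l : (𝓞 K)ˣ) : 𝓞 K) : K))]
  have hle : Even l := by
    apply hodd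
    apply hsq
    have h8 : (f ε₀ ^ l) ^ 2 = 1 := by
      rw [← zpow_natCast, ← zpow_mul, mul_comm, ← hw1, hk', map_zpow]
      rfl
    have h9 : ((f ε₀ ^ l : (𝓞 K ⧸ q.asIdeal)ˣ) : 𝓞 K ⧸ q.asIdeal) ^ 2 = 1 := by
      rw [← Units.val_pow_eq_pow_val, h8, Units.val_one]
    exact sq_eq_one_iff_of_side_conds h9
  obtain ⟨j, rfl⟩ := hle
  refine ⟨ε₀ ^ j, ?_⟩
  rw [hk', ← zpow_natCast, ← zpow_mul]
  congr 1
  push_cast
  ring

/-- a fundamental unit is not a square or the negative of a square -/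
lemma fund_not_sq {ε₀ : (𝓞 K)ˣ} (hε₀ : ∀ w : (𝓞 K)ˣ, ∃ k : ℤ, w = ε₀ ^ k ∨ w = -ε₀ ^ k)
    (hε₁ : ∀ k : ℤ, (ε₀ ^ k = 1 ∨ ε₀ ^ k = -1) → k = 0) {y : K}
    (hy : y ^ 2 = ((ε₀ : 𝓞 K) : K) ∨ y ^ 2 = -((ε₀ : 𝓞 K) : K)) : False := by
  have hint : IsIntegral ℤ y := by
    apply IsIntegral.of_pow (n := 2) (by norm_num)
    rcases hy with hy | hy
    · rw [hy]; exact RingOfIntegers.isIntegral_coe _
    · rw [hy]; exact (RingOfIntegers.isIntegral_coe _).neg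
  obtain ⟨z, rfl⟩ : ∃ z : 𝓞 K, algebraMap (𝓞 K) K z = y := ⟨⟨y, hint⟩, rfl⟩
  have hz : z ^ 2 = (ε₀ : 𝓞 K) ∨ z ^ 2 = -(ε₀ : 𝓞 K) := by
    rcases hy with hy | hy
    · left
      apply RingOfIntegers.coe_injective
      rw [map_pow]; exact hy
    · right
      apply RingOfIntegers.coe_injective
      rw [map_pow, map_neg]; exact hy
  have hzu : IsUnit z := by
    rw [← isUnit_pow_iff (two_ne_zero)]
    rcases hz with hz | hz
    · rw [hz]; exact ε₀.isUnit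
    · rw [hz]; exact ε₀.isUnit.neg
  obtain ⟨u, rfl⟩ := hzu
  have hu : u ^ 2 = ε₀ ∨ u ^ 2 = -ε₀ := by
    rcases hz with hz | hz
    · left
      apply Units.ext
      rw [Units.val_pow_eq_pow_val]; exact hz
    · right
      apply Units.ext
      rw [Units.val_pow_eq_pow_val, Units.val_neg]; exact hz
  obtain ⟨k, hk⟩ := hε₀ u
  have hk2 : u ^ 2 = ε₀ ^ (2 * k) := by
    rw [mul_comm, zpow_mul, zpow_ofNat]
    rcases hk with rfl | rfl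
    · rfl
    · rw [neg_sq]
  have h3 : ε₀ ^ (2 * k - 1) = 1 ∨ ε₀ ^ (2 * k - 1) = -1 := by
    rw [zpow_sub, zpow_one, ← hk2]
    rcases hu with hu | hu
    · left; rw [hu, mul_inv_cancel]
    · right; rw [hu, neg_mul, mul_inv_cancel]
  have h4 := hε₁ _ h3
  omega

lemma real_M1 {x : ℝ} (hx : (x : ℂ) ∈ MN (1 : K) 1) : ∃ a : K, x = algebraMap K ℝ a := by
  obtain ⟨a, b, hab'⟩ := real_MN_one hx
  refine ⟨a + b, ?_⟩
  rw [hab', map_one, abs_one, Real.sqrt_one, mul_one, map_add]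

/-- a square root of the fundamental unit is not in the field of fourth roots of unity -/
lemma M1_lt {ε₀ : (𝓞 K)ˣ} (hε₀ : ∀ w : (𝓞 K)ˣ, ∃ k : ℤ, w = ε₀ ^ k ∨ w = -ε₀ ^ k)
    (hε₁ : ∀ k : ℤ, (ε₀ ^ k = 1 ∨ ε₀ ^ k = -1) → k = 0) :
    MN (1 : K) 1 < MN (1 : K) 1 ⊔ MN ((ε₀ : 𝓞 K) : K) 1 := by
  set e : K := ((ε₀ : 𝓞 K) : K) with he
  obtain ⟨ρ, hρ⟩ := IsAlgClosed.exists_pow_nat_eq (algebraMap K ℂ e)
    (show 0 < 2 ^ 1 by positivity)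
  have hρE : ρ ∈ MN e 1 := subset_adjoin K _ (Or.inl hρ)
  refine lt_of_le_of_ne le_sup_left fun hh => ?_
  have hρM : ρ ∈ MN (1 : K) 1 := by
    rw [hh]
    exact (le_sup_right : MN e 1 ≤ _) hρE
  rw [pow_one, IsScalarTower.algebraMap_apply K ℝ ℂ] at hρ
  set r : ℝ := algebraMap K ℝ e with hrdef
  have hI : Complex.I ∈ MN (1 : K) 1 := subset_adjoin K _ (Or.inr (by norm_num))
  have hre : ρ.re * ρ.im = 0 := by
    have h3 := congrArg Complex.im hρ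
    rw [pow_two, Complex.mul_im] at h3
    have h4 : ((algebraMap ℝ ℂ) r).im = 0 := Complex.ofReal_im r
    rw [h4] at h3
    linarith
  rcases mul_eq_zero.1 hre with h0 | h0
  · -- purely imaginary
    have h5 : ρ = (ρ.im : ℂ) * Complex.I := by
      apply Complex.ext <;> simp [h0]
    have h6 : (ρ.im : ℂ) ∈ MN (1 : K) 1 := by
      have h7 : (ρ.im : ℂ) = -(ρ * Complex.I) := by
        rw [h5]
        simp only [Complex.mul_im, Complex.ofReal_re, Complex.I_im, mul_one, Complex.ofReal_im,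
          Complex.I_re, mul_zero, add_zero]
        rw [mul_assoc, Complex.I_mul_I]
        ring
      rw [h7]
      exact neg_mem (mul_mem hρM hI)
    obtain ⟨a, ha⟩ := real_M1 h6
    apply fund_not_sq hε₀ hε₁ (y := a)
    right
    apply (algebraMap K ℝ).injective
    rw [map_pow, ← ha, map_neg]
    have h8 : ((ρ.im ^ 2 : ℝ) : ℂ) = ((-r : ℝ) : ℂ) := by
      have h9 : ρ ^ 2 = -((ρ.im : ℂ) ^ 2) := by
        rw [h5]
        simp only [Complex.mul_im, Complex.ofReal_re, Complex.I_im, mul_one, Complex.ofReal_im,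
          Complex.I_re, mul_zero, add_zero]
        rw [mul_pow, Complex.I_sq]
        ring
      rw [hρ] at h9
      have h10 : ((algebraMap ℝ ℂ) r) = (r : ℂ) := rfl
      rw [h10] at h9
      push_cast
      rw [h9]
      ring
    have h11 : ρ.im ^ 2 = -r := Complex.ofReal_injective h8
    exact h11
  · have h5 : ρ = (ρ.re : ℂ) := by
      apply Complex.ext <;> simp [h0]
    rw [h5] at hρM
    obtain ⟨a, ha⟩ := real_M1 hρM
    apply fund_not_sq hε₀ hε₁ (y := a)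
    left
    apply (algebraMap K ℝ).injective
    rw [map_pow, ← ha]
    have h8 : ((ρ.re ^ 2 : ℝ) : ℂ) = ((r : ℝ) : ℂ) := by
      have h9 : ρ ^ 2 = ((ρ.re : ℂ) ^ 2) := by rw [← h5]
      rw [hρ] at h9
      push_cast
      rw [← h9]
      rfl
    exact Complex.ofReal_injective h8

theorem goodF_core {ε₀ : (𝓞 K)ˣ} (hε₀ : ∀ w : (𝓞 K)ˣ, ∃ k : ℤ, w = ε₀ ^ k ∨ w = -ε₀ ^ k)
    (hε₁ : ∀ k : ℤ, (ε₀ ^ k = 1 ∨ ε₀ ^ k = -1) → k = 0)
    {M₂ : IntermediateField K ℂ} [FiniteDimensional K M₂] [IsGalois K M₂]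
    (h2' : MN (1 : K) 1 < M₂) (B : Set (PrI K)) (hB : B.Finite) :
    ∃ (L : IntermediateField K ℂ) (_ : NumberField L) (_ : IsGalois K L)
      (hL₂ : M₂ ≤ L) (P : PrI L) (σ : L ≃ₐ[K] L), und K P ∉ B ∧ IsFrob K P σ ∧
      GoodF ε₀ (und K P) ∧
      (∀ x (hx : x ∈ MN (1 : K) 1), σ ⟨x, hL₂ (h2'.le hx)⟩ = ⟨x, hL₂ (h2'.le hx)⟩) ∧
      (∃ x, ∃ hx : x ∈ M₂, σ ⟨x, hL₂ hx⟩ ≠ ⟨x, hL₂ hx⟩) := by
  set e : K := ((ε₀ : 𝓞 K) : K) with he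
  have gM : IsGalois K (MN (1 : K) 1) := gal_MN 1 1
  have fM : FiniteDimensional K (MN (1 : K) 1) := fd_MN 1 1
  have gE : IsGalois K (MN e 1) := gal_MN e 1
  have fE : FiniteDimensional K (MN e 1) := fd_MN e 1
  have hz2 : zt 2 ∈ MN (1 : K) 1 := subset_adjoin K _ (Or.inr (zt_prim 2).pow_eq_one)
  have gM₁ : IsGalois K (MN (1 : K) 1 ⊔ MN e 1 : IntermediateField K ℂ) := by
    have : Normal K (MN (1 : K) 1 ⊔ MN e 1 : IntermediateField K ℂ) := inferInstance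
    exact ⟨⟩
  have h1 : MN (1 : K) 1 < MN (1 : K) 1 ⊔ MN e 1 := M1_lt hε₀ hε₁
  obtain ⟨L, hNL, hGL, hL₁, hL₂, P, σ, hPB, hσ, e0, ⟨x₁, hx₁, e1⟩, ⟨x₂, hx₂, e2⟩⟩ :=
    exists_twoC h1 h2' ({q | (2 : 𝓞 K) ∈ q.asIdeal} ∪ B) ((finite_two K).union hB)
  rw [Set.mem_union, not_or] at hPB
  obtain ⟨hq2, hqB⟩ := hPB
  have hq2 : (2 : 𝓞 K) ∉ (und K P).asIdeal := hq2
  have hML : MN (1 : K) 1 ≤ L := h1.le.trans hL₁
  have hEL : MN e 1 ≤ L := (le_sup_right : MN e 1 ≤ _).trans hL₁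
  have hfM : MN (1 : K) 1 ≤ fixL σ := fun z hz => (mem_fixL σ (hML hz)).2 (e0 z hz)
  have hdvd : 2 ^ 2 ∣ pn (und K P) - 1 := by
    have hζL : IsPrimitiveRoot (⟨zt 2, hML hz2⟩ : L) (2 ^ 2) := by
      rw [← IsPrimitiveRoot.coe_submonoidClass_iff]
      exact zt_prim 2
    exact (fix_root_iff hσ hq2 hζL).1 (e0 _ hz2)
  have hnsq : ¬ IsSquare (Ideal.Quotient.mk (und K P).asIdeal (ε₀ : 𝓞 K)) := by
    rintro ⟨y, hy⟩
    apply e1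
    have hεP : (ε₀ : 𝓞 K) ∉ (und K P).asIdeal := fun hh =>
      (und K P).isPrime.ne_top (Ideal.eq_top_of_isUnit_mem _ hh ε₀.isUnit)
    have hTf : MN (1 : K) 1 ⊔ MN e 1 ≤ fixL σ := by
      refine sup_le hfM ?_
      unfold MN
      rw [adjoin_le_iff]
      intro z hz
      rcases hz with hz | hz
      · have hzL : z ∈ L := hEL (subset_adjoin K _ (Or.inl hz))
        refine (mem_fixL σ hzL).2 ((fix_iff_pow hσ hq2 ((pow_dvd_pow 2 one_le_two).trans hdvd) hεP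
          (x := ⟨z, hzL⟩) ?_).2 ⟨y, ?_⟩)
        · apply Subtype.ext
          exact hz
        · rw [pow_one, pow_two, hy]
      · exact hfM (subset_adjoin K _ (Or.inr hz))
    exact (mem_fixL σ _).1 (hTf hx₁)
  exact ⟨L, hNL, hGL, hL₂, P, σ, hqB, hσ, ⟨hq2, hdvd, hnsq⟩, e0, ⟨x₂, hx₂, e2⟩⟩

theorem exists_goodF {ε₀ : (𝓞 K)ˣ} (hε₀ : ∀ w : (𝓞 K)ˣ, ∃ k : ℤ, w = ε₀ ^ k ∨ w = -ε₀ ^ k)
    (hε₁ : ∀ k : ℤ, (ε₀ ^ k = 1 ∨ ε₀ ^ k = -1) → k = 0) (B : Set (PrI K)) (hB : B.Finite) :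
    ∃ q : PrI K, q ∉ B ∧ GoodF ε₀ q := by
  have gM : IsGalois K (MN (1 : K) 1) := gal_MN 1 1
  have fM : FiniteDimensional K (MN (1 : K) 1) := fd_MN 1 1
  have gE : IsGalois K (MN ((ε₀ : 𝓞 K) : K) 1) := gal_MN _ 1
  have fE : FiniteDimensional K (MN ((ε₀ : 𝓞 K) : K) 1) := fd_MN _ 1
  have gM₁ : IsGalois K (MN (1 : K) 1 ⊔ MN ((ε₀ : 𝓞 K) : K) 1 : IntermediateField K ℂ) := by
    have : Normal K (MN (1 : K) 1 ⊔ MN ((ε₀ : 𝓞 K) : K) 1 : IntermediateField K ℂ) :=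
      inferInstance
    exact ⟨⟩
  obtain ⟨L, hNL, hGL, hL₂, P, σ, hqB, -, hgood, -, -⟩ :=
    goodF_core hε₀ hε₁ (M1_lt hε₀ hε₁) B hB
  exact ⟨_, hqB, hgood⟩

theorem gen_fund {H : IntermediateField K ℝ} {Art : RayClassGroup σ₂ m ≃* (H ≃ₐ[K] H)}
    {ε₀ : (𝓞 K)ˣ} (hε₀ : ∀ w : (𝓞 K)ˣ, ∃ k : ℤ, w = ε₀ ^ k ∨ w = -ε₀ ^ k)
    (hε₁ : ∀ k : ℤ, (ε₀ ^ k = 1 ∨ ε₀ ^ k = -1) → k = 0) (hm : m ≠ ⊥)
    (hr : IsRayClassField σ₂ m H Art) (B : Set (PrI K)) (hB : B.Finite) :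
      Subgroup.closure {σ | ∃ (q : PrI K) (hq : ¬ q.asIdeal ∣ m), q ∉ B ∧ GoodF ε₀ q ∧
        Art (cls σ₂ m (prJ m q hq)) = σ} = ⊤ := by
  have hfd := hr.finite
  have hab : IsAbelianGalois K H := hr.isRCF.abelian
  have gM : IsGalois K (MN (1 : K) 1) := gal_MN 1 1
  have fM : FiniteDimensional K (MN (1 : K) 1) := fd_MN 1 1
  by_contra htop
  set T := Subgroup.closure {σ | ∃ (q : PrI K) (hq : ¬ q.asIdeal ∣ m), q ∉ B ∧ GoodF ε₀ q ∧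
        Art (cls σ₂ m (prJ m q hq)) = σ} with hT
  obtain ⟨x, hxF, hxK⟩ : ∃ x ∈ IntermediateField.lift (IntermediateField.fixedField T),
      ∀ a : K, algebraMap K ℝ a ≠ x := by
    by_contra hcon
    push Not at hcon
    apply htop
    rw [eq_top_iff]
    intro γ _
    refine mem_of_fix T (γ := γ) fun x hx => ?_
    obtain ⟨a, ha⟩ := hcon x hx
    have hxH : x ∈ H := IntermediateField.lift_le _ hx
    have h3 : (⟨x, hxH⟩ : H) = algebraMap K H a := Subtype.ext ha.symm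
    rw [act_of_mem γ hxH, h3, AlgEquiv.commutes]
    exact ha
  have hx : x ∈ H := IntermediateField.lift_le _ hxF
  have hfixT : ∀ σ ∈ T, act σ x = x := (mem_lift_fixedField T hx).1 hxF
  have hxM : (x : ℂ) ∉ MN (1 : K) 1 := by
    intro hxA
    obtain ⟨a, ha⟩ := real_M1 hxA
    exact hxK a ha.symm
  have hFH : K⟮x⟯ ≤ H := adjoin_simple_le_iff.2 hx
  have : IsAbelianGalois K K⟮x⟯ := isAbelianGalois_of_le hFH
  have : FiniteDimensional K K⟮x⟯ := fd_of_le hFH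
  have gx : IsGalois K K⟮(x : ℂ)⟯ := adjoin_coe_galois
  have fx : FiniteDimensional K K⟮(x : ℂ)⟯ := by
    rw [adjoin_coe]
    exact Module.Finite.equiv (IntermediateField.equivMap K⟮x⟯ (jR K)).toLinearEquiv
  have gM₂ : IsGalois K (MN (1 : K) 1 ⊔ K⟮(x : ℂ)⟯ : IntermediateField K ℂ) := by
    have : Normal K (MN (1 : K) 1 ⊔ K⟮(x : ℂ)⟯ : IntermediateField K ℂ) := inferInstance
    exact ⟨⟩
  have h2' : MN (1 : K) 1 < MN (1 : K) 1 ⊔ K⟮(x : ℂ)⟯ := by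
    refine lt_of_le_of_ne le_sup_left fun hh => ?_
    apply hxM
    rw [hh]
    exact (le_sup_right : K⟮(x : ℂ)⟯ ≤ _) (mem_adjoin_simple_self K _)
  obtain ⟨L, hNL, hGL, hL₂, P, σ, hPB, hσ, hgood, e0, ⟨x₂, hx₂, e2⟩⟩ :=
    goodF_core hε₀ hε₁ h2' ({q | q.asIdeal ∣ m} ∪ B) ((finite_dvd hm).union hB)
  rw [Set.mem_union, not_or] at hPB
  obtain ⟨hq, hqB⟩ := hPB
  have hq : ¬ (und K P).asIdeal ∣ m := hq
  have hML : MN (1 : K) 1 ≤ L := h2'.le.trans hL₂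
  have hfM : MN (1 : K) 1 ≤ fixL σ := fun z hz => (mem_fixL σ (hML hz)).2 (e0 z hz)
  have hmemT : Art (cls σ₂ m (prJ m (und K P) hq)) ∈ T :=
    Subgroup.subset_closure ⟨und K P, hq, hqB, hgood, rfl⟩
  have hxL : (x : ℂ) ∈ L := hL₂ ((le_sup_right : K⟮(x : ℂ)⟯ ≤ _) (mem_adjoin_simple_self K _))
  have h5 := frob_real hr hσ hq hx hxL (hfixT _ hmemT)
  apply e2
  have hf2 : MN (1 : K) 1 ⊔ K⟮(x : ℂ)⟯ ≤ fixL σ :=
    sup_le hfM (adjoin_simple_le_iff.2 ((mem_fixL σ hxL).2 h5))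
  exact (mem_fixL σ _).1 (hf2 hx₂)

end Pool.Agent.STf
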