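import Pool.Agent.Lib.MP_1ef7cf_nt_e.Mg.G004

/-!
# The Stark-Tate assertion from the ratios, for all moduli
-/

set_option linter.unusedSectionVars false

open NumberField IsDedekindDomain nonZeroDivisors IntermediateField

namespace Pool.Agent.STf

open Pool.Agent.ST Pool.Agent.STb Pool.Agent.STd

variable {K : Type*} [Field K] [NumberField K] [Algebra K ℝ] {σ₂ : K →+* ℝ}

/-- same prime divisors -/
lemma ratioP_same (h2 : Module.finrank ℚ K = 2) (hσ : σ₂ ≠ sg1 K) {n' n : Ideal (𝓞 K)}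
    (hle : n' ≤ n) (hn' : n' ≠ ⊥) (hn : n ≠ ⊥) (hn1 : n ≠ ⊤)
    (hdvd : ∀ v : HeightOneSpectrum (𝓞 K), v.asIdeal ∣ n' → v.asIdeal ∣ n)
    (h : RatioP σ₂ n') : RatioP σ₂ n := by
  obtain ⟨H', Art', hr', hR'⟩ := h
  obtain ⟨H, Art, hd⟩ := RData.same h2 hσ hle hn' hn hn1 hdvd (⟨hr', hR'⟩ : RData σ₂ _ H' Art')
  exact ⟨H, Art, hd.rcf, hd.ratio⟩

lemma starkTate_stark {m : Ideal (𝓞 K)} (h : StarkTate σ₂ m) : Stark σ₂ m := by
  obtain ⟨H, Art, Z, ε, g1, g2, g3, g4, g5, -⟩ := h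
  exact ⟨H, Art, Z, ε, g1, g2, g3, g4, g5⟩

lemma numPrimes_mono {m n' : Ideal (𝓞 K)} (hn' : n' ≠ ⊥) (hle : n' ≤ m) :
    numPrimes m ≤ numPrimes n' := by
  unfold numPrimes
  exact Set.ncard_le_ncard (fun w hw => (show w.asIdeal ∣ m from hw).trans
    (Ideal.dvd_iff_le.2 hle)) (finite_dvd hn')

/-- The Stark-Tate assertion at the moduli divisible by all primes above `2` and the ratios at all
moduli, both only for many prime divisors, imply the Stark-Tate assertion at all moduli. -/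
theorem general (h2 : Module.finrank ℚ K = 2) (hσ : σ₂ ≠ sg1 K) {n : Ideal (𝓞 K)}
    (hn1 : n ≠ ⊤) (k : ℕ)
    (hT : ∀ m : Ideal (𝓞 K), m ≠ ⊥ → n ∣ m → k ≤ numPrimes m →
      (∀ v : HeightOneSpectrum (𝓞 K), (2 : 𝓞 K) ∈ v.asIdeal → v.asIdeal ∣ m) → StarkTate σ₂ m)
    (hR : ∀ m : Ideal (𝓞 K), m ≠ ⊥ → n ∣ m → k ≤ numPrimes m → RatioP σ₂ m) :
    ∀ m : Ideal (𝓞 K), m ≠ ⊥ → n ∣ m → StarkTate σ₂ m := by
  refine STe.main2 h2 hσ hn1 k fun m hm hnm hk _ => ?_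
  have hm1 : m ≠ ⊤ := ne_top_of_le_ne_top hn1 (Ideal.dvd_iff_le.1 hnm)
  refine STe.remove_cond h2 hσ hm hm1 fun n' hn' hle hU => ?_
  refine full_auxR h2 hσ (ne_top_of_le_ne_top hm1 hle) (Or.inr hU) (fun n'' hn'' hle' => ?_)
    (fun n'' hn'' hle' htwo => ?_) n' hn' le_rfl
  · have h3 : n'' ≤ m := hle'.trans hle
    exact hR n'' hn'' (hnm.trans (Ideal.dvd_iff_le.2 h3)) (hk.trans (numPrimes_mono hn'' h3))
  · have h3 : n'' ≤ m := hle'.trans hle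
    exact hT n'' hn'' (hnm.trans (Ideal.dvd_iff_le.2 h3)) (hk.trans (numPrimes_mono hn'' h3)) htwo

end Pool.Agent.STf
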