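import Pool.Agent.Lib.MP_1ef7cf_nt_f.GA
import Pool.Agent.Lib.MP_1ef7cf_nt_f.GB
import Pool.Agent.Lib.MP_1ef7cf_nt_f.GN

/-!
# The conditions 1-3 for the ratios at sparse moduli imply the Stark-Tate assertion
-/

set_option linter.unusedSectionVars false

open NumberField IsDedekindDomain nonZeroDivisors IntermediateField

namespace Pool.Agent.STf

open Pool.Agent.ST Pool.Agent.STb Pool.Agent.STd

variable {K : Type*} [Field K] [NumberField K] [Algebra K ℝ]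
  {σ₂ : K →+* ℝ} {m : Ideal (𝓞 K)}

/-- the assertion at sparse moduli: the ratios at `m`, or at the multiples by primes whose classes
generate the ray class group -/
def SpR (σ₂ : K →+* ℝ) (m : Ideal (𝓞 K)) : Prop := RatioP σ₂ m ∨ GenP σ₂ (RatioP σ₂) m 1

/-- the ratios of ratios at a modulus -/
theorem diff_level (h2 : Module.finrank ℚ K = 2) (hσ : σ₂ ≠ sg1 K) {N : Ideal (𝓞 K)}
    (hN : N ≠ ⊥) (hN1 : N ≠ ⊤) (hG : SpR σ₂ N) :
    ∃ (H : IntermediateField K ℝ) (Art : RayClassGroup σ₂ N ≃* (H ≃ₐ[K] H)),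
      IsRayClassField σ₂ N H Art ∧
      ∀ a, Ratio σ₂ H (fun σ => ez σ₂ N Art σ / ez σ₂ N Art (σ * a)) := by
  classical
  rcases hG with ⟨H, Art, hr, hR⟩ | ⟨⟨q₀, q₁, hq, hq₀, hq₁, hs₀, hs₁⟩, hgen⟩
  · have hR' : Ratio σ₂ H (ez σ₂ N Art) := hR
    exact ⟨H, Art, hr, fun a => ratio_mul hR' (ratio_inv (ratio_trans hR' a))⟩
  rw [pow_one] at hs₀ hs₁
  obtain ⟨_, _, r₀, -⟩ := hs₀
  obtain ⟨_, _, r₁, -⟩ := hs₁
  obtain ⟨H, Art, hr⟩ := exists_rcf hN hq hq₀ hq₁ rfl rfl r₀ r₁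
  have hfdH := hr.finite
  have habH : IsAbelianGalois K H := hr.isRCF.abelian
  refine ⟨H, Art, hr, fun a => ?_⟩
  let S : Set (H ≃ₐ[K] H) := {σ | ∃ (q : PrI K) (h : ¬ q.asIdeal ∣ N),
    Art (cls σ₂ N (prJ N q h)) = σ ∧ RatioP σ₂ (N * q.asIdeal)}
  have hS : Subgroup.closure S = ⊤ := by
    have h3 : (Subgroup.closure {A : RayClassGroup σ₂ N | ∃ (q : HeightOneSpectrum (𝓞 K))
        (h : ¬ q.asIdeal ∣ N), cls σ₂ N (prJ N q h) = A ∧ RatioP σ₂ (N * q.asIdeal ^ 1)}) ≤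
        (Subgroup.closure S).comap (Art : RayClassGroup σ₂ N →* (H ≃ₐ[K] H)) := by
      rw [Subgroup.closure_le]
      rintro A ⟨q, hqN, rfl, hs⟩
      rw [pow_one] at hs
      apply Subgroup.subset_closure
      exact ⟨q, hqN, rfl, hs⟩
    rw [hgen] at h3
    rw [eq_top_iff]
    intro σ _
    obtain ⟨A, rfl⟩ := Art.surjective σ
    exact h3 (Subgroup.mem_top A)
  refine ratio_diff (fun σ => ez_pos σ) hS ?_ a
  rintro φ ⟨q, hqN, rfl, L, ArtL, hL, hRL⟩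
  have := hL.finite
  have : IsAbelianGalois K L := hL.isRCF.abelian
  have hle' : N * q.asIdeal ≤ N := Ideal.mul_le_left
  have hle : H ≤ L := IsRCF.le hle' (mul_ne_bot' hN q.ne_bot) Set.finite_empty Set.finite_empty
    hL.isRCF hr.isRCF
  have h1 := ratio_pf (e := ez σ₂ (N * q.asIdeal) ArtL) hle hRL
  have h2 : pf hle (ez σ₂ (N * q.asIdeal) ArtL) = fun σ => ez σ₂ N Art σ /
      ez σ₂ N Art (σ * (Art (cls σ₂ N (prJ N q hqN)))⁻¹) :=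
    funext fun σ => pf_prime h2 hσ hN hN1 hqN rfl hr hL hle σ
  rwa [h2] at h1

/-- same prime divisors -/
lemma SpR.same (h2 : Module.finrank ℚ K = 2) (hσ : σ₂ ≠ sg1 K) {n' n : Ideal (𝓞 K)}
    (hle : n' ≤ n) (hn' : n' ≠ ⊥) (hn : n ≠ ⊥) (hn1 : n ≠ ⊤)
    (hdvd : ∀ v : HeightOneSpectrum (𝓞 K), v.asIdeal ∣ n' → v.asIdeal ∣ n)
    (h : SpR σ₂ n') : SpR σ₂ n := by
  rcases h with h | h
  · exact Or.inl (ratioP_same h2 hσ hle hn' hn hn1 hdvd h)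
  · refine Or.inr (h.down hle hdvd fun q hq hs => ?_)
    rw [pow_one] at hs ⊢
    refine ratioP_same h2 hσ (Ideal.mul_mono_left hle) (mul_ne_bot' hn' q.ne_bot)
      (mul_ne_bot' hn q.ne_bot) (ne_top_of_le Ideal.mul_le_left hn1) (fun v hv => ?_) hs
    rcases v.prime.dvd_or_dvd hv with h | h
    · exact dvd_mul_of_dvd_left (hdvd v h) _
    · exact dvd_mul_of_dvd_right h _

lemma fibProd_refl {H : IntermediateField K ℝ} [FiniteDimensional K H] [Normal K H] {u : ℝ}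
    (σ : H ≃ₐ[K] H) : fibProd (le_refl H) u σ = act σ u := by
  classical
  have h1 : fib (le_refl H) σ = {σ} := by
    ext γ
    rw [mem_fib, res_self, Finset.mem_singleton]
  unfold ST.fibProd
  rw [h1, Finset.prod_singleton]

/-- the ratios at a modulus where the units are fourth powers, from primes whose Frobenius elements
generate the Galois group -/
theorem ratioP_of_closure (h2 : Module.finrank ℚ K = 2) (hσ : σ₂ ≠ sg1 K) (hm : m ≠ ⊥)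
    (hm1 : m ≠ ⊤) (h4 : ∀ w : (𝓞 K)ˣ, EU σ₂ m w → ∃ x : (𝓞 K)ˣ, w = x ^ 4)
    {H : IntermediateField K ℝ} {Art : RayClassGroup σ₂ m ≃* (H ≃ₐ[K] H)}
    (hr : IsRayClassField σ₂ m H Art)
    (hgen : Subgroup.closure {σ | ∃ (q : PrI K) (hq : ¬ q.asIdeal ∣ m), 4 ∣ pn q - 1 ∧
      SpR σ₂ (m * q.asIdeal) ∧ Art (cls σ₂ m (prJ m q hq)) = σ} = ⊤) : RatioP σ₂ m := by
  classical
  have hfdH := hr.finite
  have habH : IsAbelianGalois K H := hr.isRCF.abelian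
  let ι := {q : PrI K // ¬ q.asIdeal ∣ m ∧ 4 ∣ pn q - 1 ∧ SpR σ₂ (m * q.asIdeal)}
  have key : ∀ i : ι, ∃ u, IsSU σ₂ H u ∧ ∀ τ, act τ u = ez σ₂ m Art τ /
      ez σ₂ m Art (τ * (Art (cls σ₂ m (prJ m i.1 i.2.1)))⁻¹) := by
    rintro ⟨q, hq, hq4, hqS⟩
    have hle' : m * q.asIdeal ≤ m := Ideal.mul_le_left
    have hne' : m * q.asIdeal ≠ ⊥ := mul_ne_bot' hm q.ne_bot
    have hne1 : m * q.asIdeal ≠ ⊤ := ne_top_of_le_ne_top hm1 hle'
    obtain ⟨L, ArtL, hL, hD⟩ := diff_level h2 hσ hne' hne1 hqS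
    have := hL.finite
    have : IsAbelianGalois K L := hL.isRCF.abelian
    have hle : H ≤ L := IsRCF.le hle' hne' Set.finite_empty Set.finite_empty hL.isRCF hr.isRCF
    have hcard := four_dvd_card hm hq hr hL hle hq4 fun w hw => by
      obtain ⟨x, rfl⟩ := h4 w hw
      exact ⟨Ideal.Quotient.mk _ (x : 𝓞 K), by rw [← map_pow]; rfl⟩
    have hP := pf_of_four hle (fun σ => ez_pos σ) (ez_prod h2 hσ hne' hne1 ArtL) hD hcard
    refine ⟨_, hP.su, fun τ => ?_⟩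
    rw [hP.act]
    exact pf_prime h2 hσ hm hm1 hq rfl hr hL hle τ
  choose u hu hact using key
  have hgen' : Subgroup.closure (Set.range fun i : ι => Art (cls σ₂ m (prJ m i.1 i.2.1))) = ⊤ := by
    rw [eq_top_iff, ← hgen, Subgroup.closure_le]
    rintro σ ⟨q, hq, h5, h6, rfl⟩
    exact Subgroup.subset_closure ⟨⟨q, hq, h5, h6⟩, rfl⟩
  exact ⟨H, Art, hr, ratio_core σ₂ _ (fun σ => ez_pos σ)
    (fun i : ι => Art (cls σ₂ m (prJ m i.1 i.2.1))) (fun _ => H) (fun _ => le_rfl) u hu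
    (fun i σ => by rw [fibProd_refl, hact]; rfl) hgen'⟩

/-- the ratios at a modulus where the units are fourth powers -/
theorem ratioP_of_four (h2 : Module.finrank ℚ K = 2) (hσ : σ₂ ≠ sg1 K) (hm : m ≠ ⊥) (hm1 : m ≠ ⊤)
    (h4 : ∀ w : (𝓞 K)ˣ, EU σ₂ m w → ∃ x : (𝓞 K)ˣ, w = x ^ 4)
    (hG : SpR σ₂ m) (hGq : ∀ q : PrI K, ¬ q.asIdeal ∣ m → SpR σ₂ (m * q.asIdeal)) :
    RatioP σ₂ m := by
  obtain ⟨ε₀, hε₀, hε₁⟩ := exists_fund h2
  obtain ⟨H, Art, hr, -⟩ := diff_level h2 hσ hm hm1 hG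
  refine ratioP_of_closure h2 hσ hm hm1 h4 hr ?_
  rw [eq_top_iff, ← gen_fund hε₀ hε₁ hm hr ∅ Set.finite_empty, Subgroup.closure_le]
  rintro σ ⟨q, hq, -, hg, rfl⟩
  exact Subgroup.subset_closure ⟨q, hq, hg.dvd, hGq q hq, rfl⟩

/-- the primes in `GoodF` generate the ray class group -/
theorem genP_of_goodF {P : Ideal (𝓞 K) → Prop} (hm : m ≠ ⊥) {ε₀ : (𝓞 K)ˣ}
    (hε₀ : ∀ w : (𝓞 K)ˣ, ∃ k : ℤ, w = ε₀ ^ k ∨ w = -ε₀ ^ k)
    (hε₁ : ∀ k : ℤ, (ε₀ ^ k = 1 ∨ ε₀ ^ k = -1) → k = 0)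
    {H : IntermediateField K ℝ} {Art : RayClassGroup σ₂ m ≃* (H ≃ₐ[K] H)}
    (hr : IsRayClassField σ₂ m H Art) {k : ℕ}
    (hP : ∀ q : PrI K, ¬ q.asIdeal ∣ m → GoodF ε₀ q → P (m * q.asIdeal ^ k)) :
    GenP σ₂ P m k := by
  obtain ⟨q₁, hq₁, g₁⟩ := exists_goodF hε₀ hε₁ {q | q.asIdeal ∣ m} (finite_dvd hm)
  obtain ⟨q₂, hq₂, g₂⟩ := exists_goodF hε₀ hε₁ ({q | q.asIdeal ∣ m} ∪ {q₁})
    ((finite_dvd hm).union (Set.finite_singleton q₁))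
  rw [Set.mem_union, not_or] at hq₂
  have h₁ : ¬ q₁.asIdeal ∣ m := hq₁
  have h₂ : ¬ q₂.asIdeal ∣ m := hq₂.1
  refine ⟨⟨q₁, q₂, fun h => hq₂.2 h.symm, h₁, h₂, hP _ h₁ g₁, hP _ h₂ g₂⟩, ?_⟩
  have h3 : Subgroup.closure {σ | ∃ (q : PrI K) (hq : ¬ q.asIdeal ∣ m), q ∉ (∅ : Set (PrI K)) ∧
      GoodF ε₀ q ∧ Art (cls σ₂ m (prJ m q hq)) = σ} ≤
      (Subgroup.closure {A : RayClassGroup σ₂ m | ∃ (q : HeightOneSpectrum (𝓞 K))
        (h : ¬ q.asIdeal ∣ m), cls σ₂ m (prJ m q h) = A ∧ P (m * q.asIdeal ^ k)}).comap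
        (Art.symm : (H ≃ₐ[K] H) →* RayClassGroup σ₂ m) := by
    rw [Subgroup.closure_le]
    rintro A ⟨q, hq, -, hg, rfl⟩
    apply Subgroup.subset_closure
    refine ⟨q, hq, ?_, hP q hq hg⟩
    exact (Art.symm_apply_apply _).symm
  rw [gen_fund hε₀ hε₁ hm hr ∅ Set.finite_empty] at h3
  rw [eq_top_iff]
  intro A _
  have h4 := h3 (Subgroup.mem_top (Art A))
  have h5 : Art.symm (Art A) ∈ Subgroup.closure {A : RayClassGroup σ₂ m |
      ∃ (q : HeightOneSpectrum (𝓞 K)) (h : ¬ q.asIdeal ∣ m), cls σ₂ m (prJ m q h) = A ∧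
        P (m * q.asIdeal ^ k)} := h4
  rwa [MulEquiv.symm_apply_apply] at h5

/-- the moduli divisible by all primes above `2` -/
theorem starkTate_two (h2 : Module.finrank ℚ K = 2) (hσ : σ₂ ≠ sg1 K) {n : Ideal (𝓞 K)}
    (htwo : ∀ v : HeightOneSpectrum (𝓞 K), (2 : 𝓞 K) ∈ v.asIdeal → v.asIdeal ∣ n) (k : ℕ)
    (hst : ∀ m : Ideal (𝓞 K), m ≠ ⊥ → n ∣ m → k ≤ numPrimes m → SpR σ₂ m) :
    ∀ m : Ideal (𝓞 K), m ≠ ⊥ → n ∣ m → StarkTate σ₂ m := by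
  have hn1 : n ≠ ⊤ := Pool.Agent.STb.ne_top_of_two htwo
  have hS : ∀ m : Ideal (𝓞 K), m ≠ ⊥ → n ∣ m → Stark σ₂ m := by
    apply main_abs (σ₂ := σ₂) (fun h1 h3 h4 h5 h6 h7 => stark_same h2 hσ h1 h3 h4 h5 h6 h7) hn1
      htwo _ k
    · intro m hm hnm hk _
      have hm1 : m ≠ ⊤ := ne_top_of_le_ne_top hn1 (Ideal.dvd_iff_le.1 hnm)
      have htwom : ∀ v : HeightOneSpectrum (𝓞 K), (2 : 𝓞 K) ∈ v.asIdeal → v.asIdeal ∣ m :=
        fun v hv => (htwo v hv).trans hnm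
      obtain ⟨j, hj⟩ := local_weak_stark h2 hσ hm hm1 htwom
      have hne : m * Ideal.span {(2 : 𝓞 K)} ^ j ≠ ⊥ :=
        mul_ne_bot' hm (pow_ne_bot' span_two_ne_bot _)
      rcases hst _ hne (hnm.trans (dvd_mul_right _ _)) (by rw [numPrimes_level htwom]; exact hk)
        with h | h
      · refine hj j le_rfl 0 (genP_of_all hne fun q _ => ?_)
        rw [pow_zero, mul_one]
        exact h
      · exact hj j le_rfl 1 h
    · intro m hm hm1 hnm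
      obtain ⟨j, hj⟩ := local_stark h2 hσ hm hm1 fun v hv => (htwo v hv).trans hnm
      exact ⟨j, hj j le_rfl⟩
  intro m hm hnm
  exact Pool.Agent.STc.starkTate_of_stark h2 hσ hm (fun v hv => (htwo v hv).trans hnm)
    fun m' hm' hmm' => hS m' hm' (hnm.trans hmm')

/-- **Main theorem.** -/
theorem general2 (h2 : Module.finrank ℚ K = 2) (hσ : σ₂ ≠ sg1 K) {n : Ideal (𝓞 K)}
    (hn1 : n ≠ ⊤) (k : ℕ)
    (hst : ∀ m : Ideal (𝓞 K), m ≠ ⊥ → n ∣ m → k ≤ numPrimes m →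
      (∀ v : HeightOneSpectrum (𝓞 K), v.asIdeal ∣ m → v.asIdeal ^ k ∣ m) → SpR σ₂ m) :
    ∀ m : Ideal (𝓞 K), m ≠ ⊥ → n ∣ m → StarkTate σ₂ m := by
  obtain ⟨ε₀, hε₀, hε₁⟩ := exists_fund h2
  have htop : ∀ N : Ideal (𝓞 K), n ∣ N → N ≠ ⊤ := fun N hN =>
    ne_top_of_le_ne_top hn1 (Ideal.dvd_iff_le.1 hN)
  -- all moduli with many prime divisors
  have hone : ∀ N : Ideal (𝓞 K), N ≠ ⊥ → n ∣ N → k ≤ numPrimes N → SpR σ₂ N := by
    intro N hN hnN hk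
    have hNk : N ^ (k + 1) ≤ N := Ideal.pow_le_self (Nat.succ_ne_zero k)
    have hNk0 : N ^ (k + 1) ≠ ⊥ := pow_ne_zero _ hN
    have hdvd : ∀ v : HeightOneSpectrum (𝓞 K), v.asIdeal ∣ N ^ (k + 1) → v.asIdeal ∣ N :=
      fun v hv => v.prime.dvd_of_dvd_pow hv
    exact SpR.same h2 hσ hNk hNk0 hN (htop N hnN) hdvd (hst (N ^ (k + 1)) hNk0
      (hnN.trans (dvd_pow_self _ (Nat.succ_ne_zero k))) (hk.trans (numPrimes_mono hNk0 hNk))
      (fun v hv => (pow_dvd_pow_of_dvd (hdvd v hv) k).trans (pow_dvd_pow N (Nat.le_succ k))))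
  -- the moduli divisible by all primes above `2`
  have hT : ∀ m : Ideal (𝓞 K), m ≠ ⊥ → n ∣ m → k ≤ numPrimes m →
      (∀ v : HeightOneSpectrum (𝓞 K), (2 : 𝓞 K) ∈ v.asIdeal → v.asIdeal ∣ m) →
      StarkTate σ₂ m := by
    intro m hm hnm hk htwo
    exact starkTate_two h2 hσ htwo k (fun m' hm' hmm' hk' => hone m' hm' (hnm.trans hmm') hk') m hm
      dvd_rfl
  -- the ratios where the units are fourth powers
  have hR : ∀ N : Ideal (𝓞 K), N ≠ ⊥ → n ∣ N → k ≤ numPrimes N →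
      (∀ w : (𝓞 K)ˣ, EU σ₂ N w → ∃ x : (𝓞 K)ˣ, w = x ^ 4) → RatioP σ₂ N := by
    intro N hN hnN hk h4
    refine ratioP_of_four h2 hσ hN (htop N hnN) h4 (hone N hN hnN hk) fun q hq => ?_
    have hne : N * q.asIdeal ≠ ⊥ := mul_ne_bot' hN q.ne_bot
    exact hone _ hne (hnN.trans (dvd_mul_right _ _))
      (hk.trans (numPrimes_mono hne Ideal.mul_le_left))
  -- the Stark-Tate assertion there
  have hST : ∀ N : Ideal (𝓞 K), N ≠ ⊥ → n ∣ N → k ≤ numPrimes N →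
      (∀ w : (𝓞 K)ˣ, EU σ₂ N w → ∃ x : (𝓞 K)ˣ, w = x ^ 4) → StarkTate σ₂ N := by
    intro N hN hnN hk h4
    have hU : UnitCond σ₂ N := by
      intro u hu1 hu2 hu3 _
      obtain ⟨x, rfl⟩ := h4 u ⟨hu1, hu3⟩
      exact ⟨x ^ 2, by rw [← pow_add]⟩
    refine full_auxR h2 hσ (htop N hnN) (Or.inr hU) (fun n' hn' hle => ?_) (fun n' hn' hle htwo => ?_)
      N hN le_rfl
    · exact hR n' hn' (hnN.trans (Ideal.dvd_iff_le.2 hle)) (hk.trans (numPrimes_mono hn' hle))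
        fun w hw => h4 w (EU.mono' hle hw)
    · exact hT n' hn' (hnN.trans (Ideal.dvd_iff_le.2 hle)) (hk.trans (numPrimes_mono hn' hle)) htwo
  refine general h2 hσ hn1 k hT fun m hm hnm hk => ?_
  obtain ⟨H, Art, hr, -⟩ := diff_level h2 hσ hm (htop m hnm) (hone m hm hnm hk)
  refine ratioP_of_genP (k := 1) h2 hσ hm (htop m hnm) ?_
  refine genP_of_goodF hm hε₀ hε₁ hr fun q hq hg => ?_
  rw [pow_one]
  have hne : m * q.asIdeal ≠ ⊥ := mul_ne_bot' hm q.ne_bot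
  exact starkTate_stark (hST _ hne (hnm.trans (dvd_mul_right _ _))
    (hk.trans (numPrimes_mono hne Ideal.mul_le_left)) fun w hw =>
      hg.pow4 hε₀ (EU.mono' Ideal.mul_le_right hw))

end Pool.Agent.STf
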