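import Pool.Agent.Lib.MP_1ef7cf_nt_f.GC

/-!
# One exception to the Stark-Tate assertion implies many
-/

set_option linter.unusedSectionVars false

open NumberField Filter Topology IsDedekindDomain nonZeroDivisors IntermediateField

namespace Pool.Agent.STf

open Pool.Agent.ST Pool.Agent.STb Pool.Agent.STd

section dens

variable {K : Type*} [Field K] [NumberField K]

lemma DensGe.mono_set {B B' : Set (PrI K)} {c : ℝ} (h : B ⊆ B') (hB : DensGe B c) :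
    DensGe B' c := by
  obtain ⟨C, hC⟩ := hB
  refine ⟨C, ?_⟩
  filter_upwards [hC, self_mem_nhdsWithin] with s h1 h2
  have hs1 : (1 : ℝ) < s := h2
  refine h1.trans (((summable_px hs1).indicator B).tsum_le_tsum (fun q => ?_)
    ((summable_px hs1).indicator B'))
  exact Set.indicator_le_indicator_of_subset h (fun q => (px_pos s q).le) q

lemma DensGe.mono_c {B : Set (PrI K)} {c c' : ℝ} (h : c' ≤ c) (hB : DensGe B c) :
    DensGe B c' := by
  obtain ⟨C, hC⟩ := hB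
  refine ⟨C, ?_⟩
  have hs2 : ∀ᶠ s in 𝓝[>] (1 : ℝ), s < 2 :=
    mem_nhdsWithin_of_mem_nhds (Iio_mem_nhds (by norm_num))
  filter_upwards [hC, hs2, self_mem_nhdsWithin] with s h1 h2 h3
  have h4 := log_inv_nonneg (show (1 : ℝ) < s from h3) h2
  have h5 := mul_le_mul_of_nonneg_right h h4
  linarith

end dens

variable {K : Type*} [Field K] [NumberField K] [Algebra K ℝ]
  {σ₂ : K →+* ℝ} {m : Ideal (𝓞 K)}

/-- the density of the primes `q` with `4 ∣ N q - 1` and Frobenius element outside a proper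
subgroup -/
theorem densGe_four {H : IntermediateField K ℝ} {Art : RayClassGroup σ₂ m ≃* (H ≃ₐ[K] H)}
    (hr : IsRayClassField σ₂ m H Art) (hm : m ≠ ⊥) {T : Subgroup (H ≃ₐ[K] H)} (hT : T ≠ ⊤) :
    DensGe {q : PrI K | ∃ hq : ¬ q.asIdeal ∣ m, 4 ∣ pn q - 1 ∧
      Art (cls σ₂ m (prJ m q hq)) ∉ T} (1 / (2 * Module.finrank K (MN (1 : K) 1))) := by
  classical
  have hfd := hr.finite
  have hab : IsAbelianGalois K H := hr.isRCF.abelian
  have gM : IsGalois K (MN (1 : K) 1) := gal_MN 1 1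
  have fM : FiniteDimensional K (MN (1 : K) 1) := fd_MN 1 1
  obtain ⟨x, hxF, hxK⟩ : ∃ x ∈ IntermediateField.lift (IntermediateField.fixedField T),
      ∀ a : K, algebraMap K ℝ a ≠ x := by
    by_contra hcon
    push Not at hcon
    apply hT
    rw [eq_top_iff]
    intro γ _
    refine mem_of_fix T (γ := γ) fun x hx => ?_
    obtain ⟨a, ha⟩ := hcon x hx
    have hxH : x ∈ H := IntermediateField.lift_le _ hx
    have h3 : (⟨x, hxH⟩ : H) = algebraMap K H a := Subtype.ext ha.symm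
    rw [act_of_mem γ hxH, h3, AlgEquiv.commutes]
    exact ha
  have hx : x ∈ H := IntermediateField.lift_le _ hxF
  have hfixT : ∀ σ ∈ T, act σ x = x := (mem_lift_fixedField T hx).1 hxF
  have hxM : (x : ℂ) ∉ MN (1 : K) 1 := by
    intro hxA
    obtain ⟨a, ha⟩ := real_M1 hxA
    exact hxK a ha.symm
  have hFH : K⟮x⟯ ≤ H := adjoin_simple_le_iff.2 hx
  have : IsAbelianGalois K K⟮x⟯ := isAbelianGalois_of_le hFH
  have : FiniteDimensional K K⟮x⟯ := fd_of_le hFH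
  have gx : IsGalois K K⟮(x : ℂ)⟯ := adjoin_coe_galois
  have fx : FiniteDimensional K K⟮(x : ℂ)⟯ := by
    rw [adjoin_coe]
    exact Module.Finite.equiv (IntermediateField.equivMap K⟮x⟯ (jR K)).toLinearEquiv
  obtain ⟨L, hLdef⟩ : ∃ L : IntermediateField K ℂ, L = MN (1 : K) 1 ⊔ K⟮(x : ℂ)⟯ := ⟨_, rfl⟩
  have gL : IsGalois K L := by
    rw [hLdef]
    have : Normal K (MN (1 : K) 1 ⊔ K⟮(x : ℂ)⟯ : IntermediateField K ℂ) := inferInstance
    exact ⟨⟩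
  have fL : FiniteDimensional K L := by
    rw [hLdef]
    infer_instance
  have nL : NumberField L := NumberField.of_module_finite K _
  have hML : MN (1 : K) 1 ≤ L := by rw [hLdef]; exact le_sup_left
  have hxL : (x : ℂ) ∈ L := by
    rw [hLdef]
    exact (le_sup_right : K⟮(x : ℂ)⟯ ≤ _) (mem_adjoin_simple_self K _)
  have hz2 : zt 2 ∈ MN (1 : K) 1 := subset_adjoin K _ (Or.inr (zt_prim 2).pow_eq_one)
  set F : IntermediateField K L := IntermediateField.restrict hML with hF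
  have gF : IsGalois K F := IsGalois.of_algEquiv (restrictAlgEquiv hML)
  have hFtop : F < ⊤ := by
    refine lt_of_le_of_ne le_top fun h => ?_
    apply hxM
    have h3 : (⟨(x : ℂ), hxL⟩ : L) ∈ F := by rw [h]; exact mem_top
    exact (mem_restrict hML _).1 h3
  have gT : IsGalois K (⊤ : IntermediateField K L) :=
    IsGalois.of_algEquiv (IntermediateField.topEquiv (F := K) (E := L)).symm
  set R : Set (PrI L) := {P : PrI L | ¬ Algebra.IsUnramifiedAt (𝓞 K) P.asIdeal} with hR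
  set B' : Set (PrI K) := ({q | q.asIdeal ∣ m} ∪ {q | (2 : 𝓞 K) ∈ q.asIdeal}) ∪ und K '' R with hB'
  have hB'fin : B'.Finite := ((finite_dvd hm).union (finite_two K)).union
    ((finite_ramified K).image _)
  have hB'un : ∀ P : PrI L, ¬ Algebra.IsUnramifiedAt (𝓞 K) P.asIdeal → und K P ∈ B' :=
    fun P hP => Or.inr ⟨P, hP, rfl⟩
  -- the inclusion
  have hincl : ∀ p ∈ spl B' F, p ∉ spl B' (⊤ : IntermediateField K L) →
      p ∈ {q : PrI K | ∃ hq : ¬ q.asIdeal ∣ m, 4 ∣ pn q - 1 ∧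
        Art (cls σ₂ m (prJ m q hq)) ∉ T} := by
    intro p hp hpT
    obtain ⟨P, rfl⟩ := exists_ovr (L := L) p
    have hun : Algebra.IsUnramifiedAt (𝓞 K) P.asIdeal := by
      by_contra hn
      exact hp.1 (hB'un P hn)
    obtain ⟨σ, hσ⟩ := exists_isFrob (K := K) P
    have h3 := (mem_spl_iff F hun hp.1 hσ).1 hp
    rw [mem_spl_iff ⊤ hun hp.1 hσ] at hpT
    have hq : ¬ (und K P).asIdeal ∣ m := fun h => hp.1 (Or.inl (Or.inl h))
    have hq2 : (2 : 𝓞 K) ∉ (und K P).asIdeal := fun h => hp.1 (Or.inl (Or.inr h))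
    refine ⟨hq, ?_, fun hT' => hpT ?_⟩
    · have hζL : IsPrimitiveRoot (⟨zt 2, hML hz2⟩ : L) (2 ^ 2) := by
        rw [← IsPrimitiveRoot.coe_submonoidClass_iff]
        exact zt_prim 2
      exact (fix_root_iff hσ hq2 hζL).1 (h3 _ ((mem_restrict hML _).2 hz2))
    · have h5 := frob_real hr hσ hq hx hxL (hfixT _ hT')
      have hf2 : L ≤ fixL σ := by
        conv_lhs => rw [hLdef]
        refine sup_le (fun z hz => (mem_fixL σ (hML hz)).2 (h3 _ ((mem_restrict hML _).2 hz)))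
          (adjoin_simple_le_iff.2 ((mem_fixL σ hxL).2 h5))
      intro y _
      exact (mem_fixL σ y.2).1 (hf2 y.2)
  obtain ⟨C, hC⟩ := spl_lower B' hB'fin F
  obtain ⟨C₂, hC₂⟩ := spl_upper B' hB'un (⊤ : IntermediateField K L)
  have hfF : Module.finrank K F = Module.finrank K (MN (1 : K) 1) :=
    (LinearEquiv.finrank_eq (restrictAlgEquiv hML).toLinearEquiv).symm
  set a : ℝ := (Module.finrank K (MN (1 : K) 1) : ℝ) with ha
  set a₂ : ℝ := (Module.finrank K (⊤ : IntermediateField K L) : ℝ) with ha₂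
  have ha0 : 0 < a := by
    rw [ha]; exact_mod_cast (Module.finrank_pos : 0 < Module.finrank K (MN (1 : K) 1))
  have e₂ : 2 * a ≤ a₂ := by
    have h6 := finrank_lt_double hFtop
    rw [hfF] at h6
    rw [ha, ha₂]
    exact_mod_cast h6
  refine ⟨C / a + C₂ / (2 * a), ?_⟩
  filter_upwards [hC, hC₂, self_mem_nhdsWithin] with s g g₂ hs1
  have hs1' : (1 : ℝ) < s := hs1
  rw [hfF] at g
  set S := ∑' q, (spl B' F).indicator (px s) q with hS
  set S₂ := ∑' q, (spl B' (⊤ : IntermediateField K L)).indicator (px s) q with hS₂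
  set G : Set (PrI K) := {q : PrI K | ∃ hq : ¬ q.asIdeal ∣ m, 4 ∣ pn q - 1 ∧
        Art (cls σ₂ m (prJ m q hq)) ∉ T} with hG
  have hsm : ∀ T : Set (PrI K), Summable (T.indicator (px s) : PrI K → ℝ) :=
    fun T => (summable_px hs1').indicator T
  have hnn : ∀ (T : Set (PrI K)) (q : PrI K), 0 ≤ T.indicator (px s) q :=
    fun T q => Set.indicator_nonneg (fun x _ => (px_pos s x).le) q
  have key : S ≤ ∑' q, G.indicator (px s) q + S₂ := by
    rw [hS, hS₂, ← (hsm _).tsum_add (hsm _)]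
    apply (hsm _).tsum_le_tsum _ ((hsm _).add (hsm _))
    intro q
    have n1 := hnn G q
    have n2 := hnn (spl B' (⊤ : IntermediateField K L)) q
    by_cases c1 : q ∈ spl B' F
    · by_cases c2 : q ∈ spl B' (⊤ : IntermediateField K L)
      · rw [Set.indicator_of_mem c1, Set.indicator_of_mem c2]
        linarith
      · rw [Set.indicator_of_mem c1, Set.indicator_of_mem (hincl q c1 c2)]
        linarith
    · rw [Set.indicator_of_notMem c1]
      linarith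
  have hS₂0 : 0 ≤ S₂ := tsum_nonneg (hnn _)
  have h7 : 2 * a * S₂ ≤ Real.log (1 / (s - 1)) + C₂ :=
    (mul_le_mul_of_nonneg_right e₂ hS₂0).trans g₂
  have h8 : S₂ ≤ (Real.log (1 / (s - 1)) + C₂) / (2 * a) := by
    rw [le_div_iff₀ (by positivity)]
    linarith
  have h9 : (Real.log (1 / (s - 1)) - C) / a ≤ S := by
    rw [div_le_iff₀ ha0]
    linarith
  have h10 : 1 / (2 * a) * Real.log (1 / (s - 1)) - (C / a + C₂ / (2 * a)) =
      (Real.log (1 / (s - 1)) - C) / a - (Real.log (1 / (s - 1)) + C₂) / (2 * a) := by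
    field_simp
    ring
  rw [h10]
  linarith

/-- **One failure of the ratios at a modulus where the units are fourth powers implies many.** -/
theorem dens_step (h2 : Module.finrank ℚ K = 2) (hσ : σ₂ ≠ sg1 K) (hm : m ≠ ⊥) (hm1 : m ≠ ⊤)
    (h4 : ∀ w : (𝓞 K)ˣ, EU σ₂ m w → ∃ x : (𝓞 K)ˣ, w = x ^ 4) (hfail : ¬ RatioP σ₂ m) :
    DensGe {q : PrI K | ¬ q.asIdeal ∣ m ∧ ¬ RatioP σ₂ (m * q.asIdeal)}
      (1 / (2 * Module.finrank K (MN (1 : K) 1))) := by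
  have fM : FiniteDimensional K (MN (1 : K) 1) := fd_MN 1 1
  have ha0 : (1 : ℝ) ≤ (Module.finrank K (MN (1 : K) 1) : ℝ) := by
    exact_mod_cast Nat.one_le_iff_ne_zero.2
      (Module.finrank_pos : 0 < Module.finrank K (MN (1 : K) 1)).ne'
  by_cases hG : GenP σ₂ (RatioP σ₂) m 1
  · obtain ⟨H, Art, hr, -⟩ := diff_level h2 hσ hm hm1 (Or.inr hG)
    set T := Subgroup.closure {σ | ∃ (q : PrI K) (hq : ¬ q.asIdeal ∣ m), 4 ∣ pn q - 1 ∧
      SpR σ₂ (m * q.asIdeal) ∧ Art (cls σ₂ m (prJ m q hq)) = σ} with hT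
    have hTne : T ≠ ⊤ := fun h => hfail (ratioP_of_closure h2 hσ hm hm1 h4 hr h)
    refine DensGe.mono_set ?_ (densGe_four hr hm hTne)
    rintro q ⟨hq, hq4, hqT⟩
    refine ⟨hq, fun hR => hqT (Subgroup.subset_closure ⟨q, hq, hq4, Or.inl hR, rfl⟩)⟩
  · have h5 := densGe_of_not_genP (P := RatioP σ₂) (fun m hm => by
      obtain ⟨H, Art, hr, -⟩ := hm
      exact ⟨H, Art, hr⟩) hm hG
    simp only [pow_one] at h5
    refine DensGe.mono_c ?_ h5
    apply one_div_le_one_div_of_le (by norm_num)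
    linarith

/-- The propagation of failures. -/
theorem propagate1 {P : Ideal (𝓞 K) → Prop} {c : ℝ} (hc : 0 < c)
    {n : Ideal (𝓞 K)} (hn : n ≠ ⊥)
    (hstep : ∀ m : Ideal (𝓞 K), m ≠ ⊥ → n ∣ m → ¬ P m →
      DensGe {q : PrI K | ¬ q.asIdeal ∣ m ∧ ¬ P (m * q.asIdeal)} c)
    (hfail : ¬ P n) (C : ℝ) :
    ∃ δ > 0, ∀ s : ℝ, 1 < s → s < 1 + δ → ∃ T : Finset (Ideal (𝓞 K)),
      (∀ m ∈ T, m ≠ ⊥ ∧ n ∣ m ∧ ¬ P m) ∧
      C * Real.log (1 / (s - 1)) ≤ ∑ m ∈ T, (Ideal.absNorm m : ℝ) ^ (-s) := by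
  classical
  have hB := hstep n hn dvd_rfl hfail
  set B : Set (PrI K) := {q : PrI K | ¬ q.asIdeal ∣ n ∧ ¬ P (n * q.asIdeal)} with hBdef
  set Bq : PrI K → Set (PrI K) := fun q => {q' : PrI K | ¬ q'.asIdeal ∣ n * q.asIdeal ∧
      ¬ P (n * q.asIdeal * q'.asIdeal)} with hBq
  have hB2 : ∀ q ∈ B, DensGe (Bq q) c := by
    rintro q ⟨hq, hqP⟩
    exact hstep _ (mul_ne_bot' hn q.ne_bot) (dvd_mul_right _ _) hqP
  -- constants
  set c₀ : ℝ := (Ideal.absNorm n : ℝ) with hc₀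
  have hc₀1 : 1 ≤ c₀ := by
    have h1 : Ideal.absNorm n ≠ 0 := by rw [Ne, Ideal.absNorm_eq_zero_iff]; exact hn
    rw [hc₀]
    exact_mod_cast Nat.one_le_iff_ne_zero.2 h1
  set M : ℝ := 2 * (|C| + 1) * c₀ ^ 2 / c with hM
  have hM0 : 0 < M := by positivity
  -- choose `s₁` and the finite set `Q₀`
  obtain ⟨CB, hCB0, hCB⟩ := hB.exists_finset
  have hs2 : ∀ᶠ s in 𝓝[>] (1 : ℝ), s < 2 :=
    mem_nhdsWithin_of_mem_nhds (Iio_mem_nhds (by norm_num))
  obtain ⟨s₁, ⟨Q₀, hQ₀B, hQ₀⟩, hs₁1, hs₁2, hs₁3⟩ :=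
    (hCB.and (eventually_mem_nhdsWithin.and
      (hs2.and (tendsto_log_inv.eventually_ge_atTop ((M + CB) / c))))).exists
  have hs₁ : (1 : ℝ) < s₁ := hs₁1
  have hQM : M ≤ ∑ q ∈ Q₀, px s₁ q := by
    rw [div_le_iff₀ hc] at hs₁3
    linarith
  -- remove `Q₀` from the second sets
  have hB3 : ∀ q ∈ Q₀, ∃ D : ℝ, 0 ≤ D ∧ ∀ᶠ s in 𝓝[>] (1 : ℝ), ∃ T : Finset (PrI K),
      (∀ q' ∈ T, q' ∈ Bq q \ (Q₀ : Set (PrI K))) ∧
      c * Real.log (1 / (s - 1)) - D ≤ ∑ q' ∈ T, px s q' :=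
    fun q hq => ((hB2 q (hQ₀B q hq)).diff_finite Q₀.finite_toSet).exists_finset
  choose! D hD0 hD using hB3
  have hall : ∀ᶠ s in 𝓝[>] (1 : ℝ), ∀ q ∈ Q₀, ∃ T : Finset (PrI K),
      (∀ q' ∈ T, q' ∈ Bq q \ (Q₀ : Set (PrI K))) ∧
      c * Real.log (1 / (s - 1)) - D q ≤ ∑ q' ∈ T, px s q' :=
    (Filter.eventually_all_finset Q₀).2 hD
  set D' : ℝ := ∑ q ∈ Q₀, D q with hD'
  have hD'0 : 0 ≤ D' := Finset.sum_nonneg fun q hq => hD0 q hq
  have hsm : ∀ᶠ s in 𝓝[>] (1 : ℝ), s < s₁ :=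
    mem_nhdsWithin_of_mem_nhds (Iio_mem_nhds hs₁)
  have hev := (hall.and (hs2.and (hsm.and
    (tendsto_log_inv.eventually_ge_atTop (2 * D' / (c * M))))))
  obtain ⟨u, hu1, hu⟩ := mem_nhdsGT_iff_exists_Ioo_subset.1 hev
  have hu1' : (1 : ℝ) < u := hu1
  refine ⟨u - 1, by linarith, fun s hs hsu => ?_⟩
  obtain ⟨hTs, hs2', hss₁, hlog⟩ := hu ⟨hs, by linarith⟩
  have hlog0 : 0 ≤ Real.log (1 / (s - 1)) := log_inv_nonneg hs hs2'
  set ℓ : ℝ := Real.log (1 / (s - 1)) with hℓ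
  choose! T hT hT' using hTs
  -- the map
  set f : (Σ _ : PrI K, PrI K) → Ideal (𝓞 K) := fun p =>
    n * p.1.asIdeal * p.2.asIdeal with hf
  set S : Finset (Σ _ : PrI K, PrI K) := Q₀.sigma T with hS
  have hfe : ∀ p, f p = n * (p.1.asIdeal * p.2.asIdeal) := by
    intro p
    simp only [hf]
    ring
  have hinj : Set.InjOn f S := by
    rintro ⟨q, q'⟩ hp ⟨t, t'⟩ hp' heq
    rw [Finset.mem_coe, hS, Finset.mem_sigma] at hp hp'
    simp only at hp hp'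
    rw [hfe, hfe] at heq
    simp only at heq
    have hn0 : n ≠ 0 := by rw [Ideal.zero_eq_bot]; exact hn
    have h1 : q.asIdeal * q'.asIdeal = t.asIdeal * t'.asIdeal := mul_left_cancel₀ hn0 heq
    have h2 : q.asIdeal ∣ t.asIdeal * t'.asIdeal := ⟨q'.asIdeal, h1.symm⟩
    have ht'Q : t' ∉ (Q₀ : Set (PrI K)) := (hT t hp'.1 t' hp'.2).2
    rcases q.prime.dvd_or_dvd h2 with h3 | h3
    · have h4 := eq_of_dvd_prime h3
      subst h4
      have hq0 : q.asIdeal ≠ 0 := by rw [Ideal.zero_eq_bot]; exact q.ne_bot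
      have h5 : q'.asIdeal = t'.asIdeal := mul_left_cancel₀ hq0 h1
      have h6 : q' = t' := HeightOneSpectrum.ext h5
      subst h6
      rfl
    · have h4 := eq_of_dvd_prime h3
      subst h4
      exact absurd (Finset.mem_coe.2 hp.1) ht'Q
  refine ⟨S.image f, ?_, ?_⟩
  · intro m hm
    obtain ⟨⟨q, q'⟩, hp, rfl⟩ := Finset.mem_image.1 hm
    rw [hS, Finset.mem_sigma] at hp
    simp only at hp
    obtain ⟨⟨h3, h4⟩, -⟩ := hT q hp.1 q' hp.2
    refine ⟨mul_ne_bot' (mul_ne_bot' hn q.ne_bot) q'.ne_bot, ?_, h4⟩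
    exact dvd_mul_of_dvd_left (dvd_mul_right _ _) _
  · rw [Finset.sum_image hinj, hS, Finset.sum_sigma]
    have hterm : ∀ q q' : PrI K, (Ideal.absNorm (f ⟨q, q'⟩) : ℝ) ^ (-s) =
        c₀ ^ (-s) * (px s q * px s q') := by
      intro q q'
      rw [hfe]
      simp only [map_mul, Nat.cast_mul]
      rw [Real.mul_rpow (by positivity) (by positivity),
        Real.mul_rpow (by positivity) (by positivity)]
      rfl
    have h1 : ∑ q ∈ Q₀, ∑ q' ∈ T q, (Ideal.absNorm (f ⟨q, q'⟩) : ℝ) ^ (-s) =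
        c₀ ^ (-s) * ∑ q ∈ Q₀, px s q * ∑ q' ∈ T q, px s q' := by
      rw [Finset.mul_sum]
      refine Finset.sum_congr rfl fun q _ => ?_
      rw [Finset.mul_sum, Finset.mul_sum]
      refine Finset.sum_congr rfl fun q' _ => ?_
      exact hterm q q'
    rw [h1]
    have h2 : c * ℓ * M - D' ≤ ∑ q ∈ Q₀, px s q * ∑ q' ∈ T q, px s q' := by
      have h3 : ∀ q ∈ Q₀, px s₁ q * (c * ℓ) - D q ≤ px s q * ∑ q' ∈ T q, px s q' := by
        intro q hq
        have h4 := hT' q hq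
        have h5 : px s₁ q ≤ px s q := px_anti hss₁.le q
        have h6 : px s q ≤ 1 := (px_le_half hs.le q).trans (by norm_num)
        have h7 : 0 < px s q := px_pos s q
        have h8 := hD0 q hq
        have h9 : px s q * (c * ℓ - D q) ≤ px s q * ∑ q' ∈ T q, px s q' :=
          mul_le_mul_of_nonneg_left h4 h7.le
        have h10 : px s₁ q * (c * ℓ) ≤ px s q * (c * ℓ) :=
          mul_le_mul_of_nonneg_right h5 (by positivity)
        have h11 : px s q * D q ≤ 1 * D q := mul_le_mul_of_nonneg_right h6 h8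
        nlinarith
      have h4 := Finset.sum_le_sum h3
      rw [Finset.sum_sub_distrib, ← Finset.sum_mul] at h4
      have h5 : M * (c * ℓ) ≤ (∑ q ∈ Q₀, px s₁ q) * (c * ℓ) :=
        mul_le_mul_of_nonneg_right hQM (by positivity)
      linarith
    have h3 : 2 * D' ≤ ℓ * (c * M) := by
      rw [div_le_iff₀ (by positivity)] at hlog
      exact hlog
    have h4 : (1 / 2) * (c * ℓ * M) ≤ ∑ q ∈ Q₀, px s q * ∑ q' ∈ T q, px s q' := by
      nlinarith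
    have h5 : (c₀ ^ 2)⁻¹ ≤ c₀ ^ (-s) := by
      rw [Real.rpow_neg (by positivity)]
      apply inv_anti₀ (Real.rpow_pos_of_pos (by positivity) _)
      calc c₀ ^ s ≤ c₀ ^ (2 : ℝ) := Real.rpow_le_rpow_of_exponent_le hc₀1 hs2'.le
        _ = c₀ ^ 2 := by norm_num
    have h6 : 0 ≤ (1 / 2) * (c * ℓ * M) := by positivity
    calc C * ℓ ≤ (|C| + 1) * ℓ :=
          mul_le_mul_of_nonneg_right (by have := le_abs_self C; linarith) hlog0
      _ = (c₀ ^ 2)⁻¹ * ((1 / 2) * (c * ℓ * M)) := by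
          rw [hM]
          have : c₀ ^ 2 ≠ 0 := by positivity
          field_simp
      _ ≤ c₀ ^ (-s) * ((1 / 2) * (c * ℓ * M)) := mul_le_mul_of_nonneg_right h5 h6
      _ ≤ _ := mul_le_mul_of_nonneg_left h4 (Real.rpow_nonneg (by positivity) _)

/-- The ratios at the multiples of `n` where the units are fourth powers imply the Stark-Tate
assertion for `n`. -/
theorem starkTate_of_four (h2 : Module.finrank ℚ K = 2) (hσ : σ₂ ≠ sg1 K) {n : Ideal (𝓞 K)}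
    (hn1 : n ≠ ⊤)
    (hst : ∀ m : Ideal (𝓞 K), m ≠ ⊥ → n ∣ m →
      (∀ w : (𝓞 K)ˣ, EU σ₂ m w → ∃ x : (𝓞 K)ˣ, w = x ^ 4) → RatioP σ₂ m) :
    ∀ m : Ideal (𝓞 K), m ≠ ⊥ → n ∣ m → StarkTate σ₂ m := by
  obtain ⟨ε₀, hε₀, hε₁⟩ := exists_fund h2
  have htop : ∀ N : Ideal (𝓞 K), n ∣ N → N ≠ ⊤ := fun N hN =>
    ne_top_of_le_ne_top hn1 (Ideal.dvd_iff_le.1 hN)
  have hST : ∀ N : Ideal (𝓞 K), N ≠ ⊥ → n ∣ N →
      (∀ w : (𝓞 K)ˣ, EU σ₂ N w → ∃ x : (𝓞 K)ˣ, w = x ^ 4) → StarkTate σ₂ N := by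
    intro N hN hnN h4
    have hU : UnitCond σ₂ N := by
      intro u hu1 hu2 hu3 _
      obtain ⟨x, rfl⟩ := h4 u ⟨hu1, hu3⟩
      exact ⟨x ^ 2, by rw [← pow_add]⟩
    have hR : ∀ n' : Ideal (𝓞 K), n' ≠ ⊥ → n' ≤ N → RatioP σ₂ n' := fun n' hn' hle =>
      hst n' hn' (hnN.trans (Ideal.dvd_iff_le.2 hle)) fun w hw => h4 w (EU.mono' hle hw)
    refine full_auxR h2 hσ (htop N hnN) (Or.inr hU) hR (fun n' hn' hle htwo => ?_) N hN le_rfl
    exact starkTate_two h2 hσ htwo 0 (fun m' hm' hmm' _ =>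
      Or.inl (hR m' hm' ((Ideal.dvd_iff_le.1 hmm').trans hle))) n' hn' dvd_rfl
  have hRat : ∀ m : Ideal (𝓞 K), m ≠ ⊥ → n ∣ m → RatioP σ₂ m := by
    intro m hm hnm
    have hgood : ∀ q : PrI K, GoodF ε₀ q → StarkTate σ₂ (m * q.asIdeal) := fun q hg =>
      hST _ (mul_ne_bot' hm q.ne_bot) (hnm.trans (dvd_mul_right _ _)) fun w hw =>
        hg.pow4 hε₀ (EU.mono' Ideal.mul_le_right hw)
    obtain ⟨q₁, hq₁, g₁⟩ := exists_goodF hε₀ hε₁ {q | q.asIdeal ∣ m} (finite_dvd hm)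
    obtain ⟨q₂, hq₂, g₂⟩ := exists_goodF hε₀ hε₁ ({q | q.asIdeal ∣ m} ∪ {q₁})
      ((finite_dvd hm).union (Set.finite_singleton q₁))
    rw [Set.mem_union, not_or] at hq₂
    have h₁ : ¬ q₁.asIdeal ∣ m := hq₁
    have h₂ : ¬ q₂.asIdeal ∣ m := hq₂.1
    obtain ⟨_, _, _, d₁⟩ := (hgood q₁ g₁).data
    obtain ⟨_, _, _, d₂⟩ := (hgood q₂ g₂).data
    obtain ⟨H, Art, hr⟩ := exists_rcf hm (fun h => hq₂.2 h.symm) h₁ h₂ rfl rfl d₁.rcf d₂.rcf
    refine ratioP_of_genP (k := 1) h2 hσ hm (htop m hnm) ?_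
    refine genP_of_goodF hm hε₀ hε₁ hr fun q hq hg => ?_
    rw [pow_one]
    exact starkTate_stark (hgood q hg)
  refine general h2 hσ hn1 0 (fun m hm hnm _ htwo => ?_) fun m hm hnm _ => hRat m hm hnm
  exact starkTate_two h2 hσ htwo 0 (fun m' hm' hmm' _ => Or.inl (hRat m' hm' (hnm.trans hmm'))) m hm
    dvd_rfl

/-- **One exception implies many, for all `n`.** -/
theorem exceptions_all (h2 : Module.finrank ℚ K = 2) (hσ : σ₂ ≠ sg1 K) {n : Ideal (𝓞 K)}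
    (hn : n ≠ ⊥) (hn1 : n ≠ ⊤) (hfail : ¬ StarkTate σ₂ n) (C : ℝ) :
    ∃ δ > 0, ∀ s : ℝ, 1 < s → s < 1 + δ → ∃ T : Finset (Ideal (𝓞 K)),
      (∀ m ∈ T, m ≠ ⊥ ∧ n ∣ m ∧ ¬ RatioP σ₂ m) ∧
      C * Real.log (1 / (s - 1)) ≤ ∑ m ∈ T, (Ideal.absNorm m : ℝ) ^ (-s) := by
  have fM : FiniteDimensional K (MN (1 : K) 1) := fd_MN 1 1
  have ha0 : (0 : ℝ) < (Module.finrank K (MN (1 : K) 1) : ℝ) := by
    exact_mod_cast (Module.finrank_pos : 0 < Module.finrank K (MN (1 : K) 1))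
  obtain ⟨n₁, hn₁, hdvd, h4, hf⟩ : ∃ n₁ : Ideal (𝓞 K), n₁ ≠ ⊥ ∧ n ∣ n₁ ∧
      (∀ w : (𝓞 K)ˣ, EU σ₂ n₁ w → ∃ x : (𝓞 K)ˣ, w = x ^ 4) ∧ ¬ RatioP σ₂ n₁ := by
    by_contra hcon
    push Not at hcon
    exact hfail (starkTate_of_four h2 hσ hn1 hcon n hn dvd_rfl)
  have hn₁1 : n₁ ≠ ⊤ := ne_top_of_le_ne_top hn1 (Ideal.dvd_iff_le.1 hdvd)
  obtain ⟨δ, hδ, h⟩ := propagate1 (P := RatioP σ₂)
    (c := 1 / (2 * Module.finrank K (MN (1 : K) 1))) (by positivity) hn₁ (fun m hm hnm hfm =>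
      dens_step h2 hσ hm (ne_top_of_le_ne_top hn₁1 (Ideal.dvd_iff_le.1 hnm))
        (fun w hw => h4 w (EU.mono' (Ideal.dvd_iff_le.1 hnm) hw)) hfm) hf C
  refine ⟨δ, hδ, fun s hs hs' => ?_⟩
  obtain ⟨T', hT, hsum⟩ := h s hs hs'
  refine ⟨T', fun m hm => ?_, hsum⟩
  obtain ⟨h1, h3, h5⟩ := hT m hm
  exact ⟨h1, hdvd.trans h3, h5⟩

end Pool.Agent.STf
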