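import Pool.Agent.Lib.MP_1ef7cf_nt_f.RD

/-!
# The square root condition for a 2-extension from its cyclotomic tower
-/

set_option linter.unusedSectionVars false

open NumberField IsDedekindDomain nonZeroDivisors IntermediateField

namespace Pool.Agent.STf

open Pool.Agent.ST Pool.Agent.STb Pool.Agent.STd

variable {K : Type*} [Field K] [NumberField K] [Algebra K ℝ] {σ₂ : K →+* ℝ}

/-- **The square root condition for a 2-extension**, from a norm compatible sequence of units. -/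
theorem sqrt_of_normSeq (h2 : Module.finrank ℚ K = 2) (hσ : σ₂ ≠ sg1 K)
    {L : IntermediateField K ℝ} (hr : ∃ r : ℕ, Module.finrank K L = 2 ^ r)
    [FiniteDimensional K L] [IsAbelianGalois K L]
    (hfj : ∀ j, FiniteDimensional K (twK L j)) (haj : ∀ j, IsAbelianGalois K (twK L j))
    {x : ℕ → ℝ} (hxp : ∀ j, PreStark σ₂ (twK L j) (x j))
    (hN : ∀ {j j' : ℕ} (hjj : j ≤ j'), fibProd (twK_mono L hjj) (x j') 1 = x j)
    {X : ℝ} (hXp : PreStark σ₂ L X) (hNX : ∀ j, fibProd (le_twK L j) (x j) 1 = X) :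
    IsAbelianGalois K (sqrtExt L X) := by
  classical
  -- conjugation
  obtain ⟨γ, hγ⟩ := exists_isConj (L := L) σ₂
  by_cases hγ1 : γ = 1
  · have h3 := hXp.conj hγ
    rw [hγ1, act_one_left hXp.mem] at h3
    have hpos := hXp.pos'
    have h4 : X = 1 := by
      have h5 : X * X = 1 := by
        nth_rw 2 [h3]
        exact mul_inv_cancel₀ hpos.ne'
      nlinarith
    rw [h4]
    exact isAbelianGalois_of_le (M := L) (sqrtExt_le le_rfl (by rw [Real.sqrt_one]; exact one_mem _))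
  obtain ⟨θ, D, hD, hp⟩ := exists_par hγ hγ1
  set F := eqField γ 1 with hF
  have hFL : F ≤ L := fun y hy => hy.1
  have hfF : FiniteDimensional K F := fd_of_le hFL
  have haF : IsAbelianGalois K F := isAbelianGalois_of_le hFL
  have hTRF : TR (rs F) := TR_fixed h2 hσ hγ
  -- finiteness
  have hFIN : FIN D (tinf (rs F)) := by
    apply chain (FINA_K0 h2 hσ) (Module.finrank K F) F rfl ?_ inferInstance hTRF.tinf D hD
    obtain ⟨r, hr⟩ := hr
    have hdvd := finrank_dvd_of_le hFL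
    rw [hr] at hdvd
    obtain ⟨s, -, hs⟩ := (Nat.dvd_prime_pow Nat.prime_two).1 hdvd
    exact ⟨s, hs⟩
  obtain ⟨T, hT⟩ := hFIN
  obtain ⟨N, hNT⟩ := mem_finset_tw (E := rs F) (T.filter (· ∈ tinf (rs F)))
    (fun t ht => (Finset.mem_filter.1 ht).2)
  obtain ⟨n, hnN, hcn⟩ := exists_not_mem L N hfj
  -- the good element
  have hgood := (hp.good h2 hσ (n + 1) (hxp (n + 1))).mono (tw_le_tinf _ _)
  obtain ⟨t, htT, s, hs, hs0, hts⟩ := hT _ hgood
  have hx0 := (hxp (n + 1)).pos'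
  have ha0 : 2 + x (n + 1) + (x (n + 1))⁻¹ ≠ 0 := by positivity
  have ht0 : t ≠ 0 := by
    rintro rfl
    rw [zero_mul] at hts
    exact ha0 hts
  have htm : t ∈ tinf (rs F) := by
    have : t = (2 + x (n + 1) + (x (n + 1))⁻¹) / s ^ 2 := by rw [hts]; field_simp
    rw [this]; exact div_mem hgood.mem (pow_mem hs 2)
  have htN : t ∈ tw (rs F) N := hNT t (Finset.mem_filter.2 ⟨htT, htm⟩)
  have htn : t ∈ twK L n := by
    have h3 : tw (rs F) N ≤ rs (twK L n) := by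
      rw [rs_twK]
      exact (tw_mono _ hnN).trans (tw_mono_left (rs_mono hFL) n)
    exact h3 htN
  obtain ⟨P, hsP⟩ := mem_tinf.1 hs
  set Q := max P (n + 1) with hQ
  have hsQ : s ∈ twK L Q := by
    have h3 : tw (rs F) P ≤ rs (twK L Q) := by
      rw [rs_twK]
      exact (tw_mono _ (le_max_left _ _)).trans (tw_mono_left (rs_mono hFL) Q)
    exact h3 hsP
  have hnQ : n + 1 ≤ Q := le_max_right _ _
  -- x (n+1) = t w ^ 2
  have hxn : x (n + 1) = t * ((1 + x (n + 1)) / (t * s)) ^ 2 := by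
    have h3 : (1 + x (n + 1)) ^ 2 = x (n + 1) * (t * s ^ 2) := by
      rw [← hts]; field_simp; ring
    rw [div_pow, h3]
    field_simp
  have hle1 := twK_mono L (Nat.le_succ n)
  have hleQ := twK_mono L hnQ
  have hxm : x (n + 1) ∈ twK L (n + 1) := (hxp (n + 1)).mem
  have hwm : (1 + x (n + 1)) / (t * s) ∈ twK L Q :=
    div_mem (add_mem (one_mem _) (hleQ hxm)) (mul_mem (hleQ (hle1 htn)) hsQ)
  obtain ⟨w, hw, hw2⟩ := norm_sq hle1 hleQ htn hwm (by rw [← hxn]; exact hxm)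
  rw [← hxn, hN (Nat.le_succ n), card_fib_two hcn] at hw2
  -- x n is a square
  have hxn2 : x n = 1 * (t * w) ^ 2 := by rw [hw2]; ring
  have htw : t * w ∈ twK L Q := mul_mem (hleQ (hle1 htn)) hw
  have hnQ' : n ≤ Q := by omega
  obtain ⟨y, hy, hy2⟩ := norm_sq (le_twK L n) (twK_mono L hnQ') (one_mem L) htw
    (by rw [← hxn2]; exact (hxp n).mem)
  rw [← hxn2, hNX, one_pow, one_mul] at hy2
  apply isAbelianGalois_of_le (M := twK L Q)
  apply sqrtExt_le (le_twK L Q)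
  rw [hy2, Real.sqrt_sq_eq_abs]
  rcases abs_choice y with h | h <;> rw [h]
  · exact hy
  · exact neg_mem hy

/-- the conditions 1-3 for a subfield `L` of the ray class field -/
structure TData (σ₂ : K →+* ℝ) (m : Ideal (𝓞 K)) {H : IntermediateField K ℝ}
    (Art : RayClassGroup σ₂ m ≃* (H ≃ₐ[K] H)) [FiniteDimensional K H]
    {L : IntermediateField K ℝ} [Normal K L] (hL : L ≤ H) (x : ℝ) : Prop where
  rcf : IsRayClassField σ₂ m H Art
  pre : PreStark σ₂ L x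
  act : ∀ γ : L ≃ₐ[K] L, ST.act γ x = pf hL (ez σ₂ m Art) γ

/-- the same, with the ray class field and the Artin map unspecified -/
def TD (σ₂ : K →+* ℝ) (m : Ideal (𝓞 K)) (L : IntermediateField K ℝ) (x : ℝ) : Prop :=
  ∃ (H : IntermediateField K ℝ) (Art : RayClassGroup σ₂ m ≃* (H ≃ₐ[K] H))
    (_ : FiniteDimensional K H) (_ : Normal K L) (hL : L ≤ H), TData σ₂ m Art hL x

lemma TD.pre {m : Ideal (𝓞 K)} {L : IntermediateField K ℝ} {x : ℝ} (h : TD σ₂ m L x) :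
    PreStark σ₂ L x := by
  obtain ⟨_, _, _, _, _, h⟩ := h
  exact h.pre

lemma TD.fd {m : Ideal (𝓞 K)} {L : IntermediateField K ℝ} {x : ℝ} (h : TD σ₂ m L x) :
    FiniteDimensional K L := by
  obtain ⟨_, _, _, _, hL, h⟩ := h
  exact fd_of_le hL

lemma TD.ab {m : Ideal (𝓞 K)} {L : IntermediateField K ℝ} {x : ℝ} (h : TD σ₂ m L x) :
    IsAbelianGalois K L := by
  obtain ⟨H, _, _, _, hL, h⟩ := h
  have : IsAbelianGalois K H := h.rcf.isRCF.abelian
  exact isAbelianGalois_of_le hL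

/-- norms to subfields, and to smaller moduli with the same prime divisors -/
lemma TData.down (h2 : Module.finrank ℚ K = 2) (hσ : σ₂ ≠ sg1 K) {n' n : Ideal (𝓞 K)}
    (hle : n' ≤ n) (hn' : n' ≠ ⊥) (hn : n ≠ ⊥) (hn1 : n ≠ ⊤)
    (hdvd : ∀ v : HeightOneSpectrum (𝓞 K), v.asIdeal ∣ n' → v.asIdeal ∣ n)
    {H H' : IntermediateField K ℝ} {Art : RayClassGroup σ₂ n ≃* (H ≃ₐ[K] H)}
    {Art' : RayClassGroup σ₂ n' ≃* (H' ≃ₐ[K] H')} [FiniteDimensional K H]
    [FiniteDimensional K H'] {L L' : IntermediateField K ℝ} [IsAbelianGalois K L]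
    [IsAbelianGalois K L'] [FiniteDimensional K L] [FiniteDimensional K L']
    (hr : IsRayClassField σ₂ n H Art) (hL : L ≤ H) {hL' : L' ≤ H'} {x' : ℝ}
    (hd' : TData σ₂ n' Art' hL' x') (h : L ≤ L') :
    TData σ₂ n Art hL (fibProd h x' 1) := by
  have hHH : H ≤ H' := IsRCF.le hle hn' Set.finite_empty Set.finite_empty hd'.rcf.isRCF
    hr.isRCF
  have : IsAbelianGalois K H := hr.isRCF.abelian
  have : IsAbelianGalois K H' := hd'.rcf.isRCF.abelian
  refine ⟨hr, hd'.pre.fibProd h, fun γ => ?_⟩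
  have hpre := hd'.pre.fibProd h
  obtain ⟨δ, rfl⟩ := res_surjective h γ
  rw [act_res h δ hpre.mem, act_fibProd h hd'.pre.mem, mul_one, ← pf_act h hd'.act,
    pf_trans h hL', ← pf_trans hL hHH]
  congr 1
  exact funext fun σ => pf_same h2 hσ hle hn' hn hn1 hdvd hr hd'.rcf hHH σ

lemma TD.down (h2 : Module.finrank ℚ K = 2) (hσ : σ₂ ≠ sg1 K) {n' n : Ideal (𝓞 K)}
    (hle : n' ≤ n) (hn' : n' ≠ ⊥) (hn : n ≠ ⊥) (hn1 : n ≠ ⊤)
    (hdvd : ∀ v : HeightOneSpectrum (𝓞 K), v.asIdeal ∣ n' → v.asIdeal ∣ n)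
    {H : IntermediateField K ℝ} {Art : RayClassGroup σ₂ n ≃* (H ≃ₐ[K] H)}
    {L L' : IntermediateField K ℝ} [IsAbelianGalois K L] [FiniteDimensional K L]
    [FiniteDimensional K L'] (hr : IsRayClassField σ₂ n H Art) (hL : L ≤ H) {x' : ℝ}
    (hd' : TD σ₂ n' L' x') (h : L ≤ L') : TD σ₂ n L (fibProd h x' 1) := by
  have hfd := hr.finite
  have := hd'.ab
  obtain ⟨H', Art', _, _, hL', hd⟩ := hd'
  exact ⟨H, Art, hfd, inferInstance, hL, hd.down h2 hσ hle hn' hn hn1 hdvd hr hL h⟩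

/-- compatibility -/
lemma TD.compat (h2 : Module.finrank ℚ K = 2) (hσ : σ₂ ≠ sg1 K) {n' n : Ideal (𝓞 K)}
    (hle : n' ≤ n) (hn' : n' ≠ ⊥) (hn : n ≠ ⊥) (hn1 : n ≠ ⊤)
    (hdvd : ∀ v : HeightOneSpectrum (𝓞 K), v.asIdeal ∣ n' → v.asIdeal ∣ n)
    {L L' : IntermediateField K ℝ} [IsAbelianGalois K L] [FiniteDimensional K L]
    [FiniteDimensional K L'] {x x' : ℝ} (hd : TD σ₂ n L x)
    (hd' : TD σ₂ n' L' x') (h : L ≤ L') : fibProd h x' 1 = x := by
  have := hd'.ab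
  obtain ⟨H, Art, _, _, hL, hd⟩ := hd
  obtain ⟨H', Art', _, _, hL', hd'⟩ := hd'
  have h1 := hd'.down h2 hσ hle hn' hn hn1 hdvd hd.rcf hL h
  have h3 := h1.act 1
  rw [act_one_left h1.pre.mem, ← hd.act 1, act_one_left hd.pre.mem] at h3
  exact h3

/-- **The square root condition for the cyclotomic tower over a 2-extension.** Here `Λ k` is an
increasing sequence of fields with `Λ k` containing `cc j` if `j + 2 ≤ k`, and `M k` a decreasing
sequence of moduli with the same prime divisors. -/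
theorem sqrt_of_TD (h2 : Module.finrank ℚ K = 2) (hσ : σ₂ ≠ sg1 K) {M : ℕ → Ideal (𝓞 K)}
    (hM : ∀ k, M k ≠ ⊥) (hM1 : ∀ k, M k ≠ ⊤) (hMM : ∀ {k k'}, k ≤ k' → M k' ≤ M k)
    (hMdvd : ∀ k k' (v : HeightOneSpectrum (𝓞 K)), v.asIdeal ∣ M k → v.asIdeal ∣ M k')
    {Λ : ℕ → IntermediateField K ℝ} (hΛ : ∀ {k k'}, k ≤ k' → Λ k ≤ Λ k')
    (hcc : ∀ {j k}, j + 2 ≤ k → cc j ∈ Λ k)
    (hS : {k | ∃ x, TD σ₂ (M k) (Λ k) x}.Infinite) {k : ℕ}
    (hr : ∃ r : ℕ, Module.finrank K (Λ k) = 2 ^ r)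
    {H : IntermediateField K ℝ} {Art : RayClassGroup σ₂ (M k) ≃* (H ≃ₐ[K] H)}
    (hH : IsRayClassField σ₂ (M k) H Art) (hLH : Λ k ≤ H) :
    ∃ X, TD σ₂ (M k) (Λ k) X ∧ IsAbelianGalois K (sqrtExt (Λ k) X) := by
  classical
  have hfH := hH.finite
  have habH : IsAbelianGalois K H := hH.isRCF.abelian
  have hfL : FiniteDimensional K (Λ k) := fd_of_le hLH
  have habL : IsAbelianGalois K (Λ k) := isAbelianGalois_of_le hLH
  -- the indices
  set κ : ℕ → ℕ := fun j => Nat.nth (fun k => ∃ x, TD σ₂ (M k) (Λ k) x) (k + (j + 2)) with hκ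
  have hκS : ∀ j, ∃ x, TD σ₂ (M (κ j)) (Λ (κ j)) x := fun j => Nat.nth_mem_of_infinite hS _
  have hmono := Nat.nth_strictMono hS
  have hκm : ∀ {j j'}, j ≤ j' → κ j ≤ κ j' := fun {j j'} hjj => hmono.monotone (by omega)
  have hκge : ∀ j, k + (j + 2) ≤ κ j := fun j => hmono.le_apply
  choose z hz using hκS
  have hfz : ∀ j, FiniteDimensional K (Λ (κ j)) := fun j => (hz j).fd
  have haz : ∀ j, IsAbelianGalois K (Λ (κ j)) := fun j => (hz j).ab
  have hkκ : ∀ j, Λ k ≤ Λ (κ j) := fun j => hΛ (by have := hκge j; omega)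
  have htw : ∀ j, twK (Λ k) j ≤ Λ (κ j) := fun j =>
    twK_le (hkκ j) (hcc (by have := hκge j; omega))
  have hfj : ∀ j, FiniteDimensional K (twK (Λ k) j) := fun j => fd_of_le (htw j)
  have haj : ∀ j, IsAbelianGalois K (twK (Λ k) j) := fun j => isAbelianGalois_of_le (htw j)
  have hx : ∀ j, TD σ₂ (M (κ j)) (twK (Λ k) j) (fibProd (htw j) (z j) 1) := by
    intro j
    obtain ⟨H', Art', _, _, hL', hd⟩ := hz j
    exact (hz j).down h2 hσ le_rfl (hM _) (hM _) (hM1 _) (fun _ h => h) hd.rcf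
      ((htw j).trans hL') (htw j)
  have hX : TD σ₂ (M k) (Λ k) (fibProd (hkκ 0) (z 0) 1) :=
    (hz 0).down h2 hσ (hMM (by have := hκge 0; omega)) (hM _) (hM _) (hM1 _) (hMdvd _ _) hH hLH _
  refine ⟨_, hX, ?_⟩
  exact sqrt_of_normSeq h2 hσ hr hfj haj (fun j => (hx j).pre)
    (fun {j j'} hjj => (hx j).compat h2 hσ (hMM (hκm hjj)) (hM _) (hM _) (hM1 _) (hMdvd _ _)
      (hx j') _) hX.pre
    (fun j => hX.compat h2 hσ (hMM (by have := hκge j; omega)) (hM _) (hM _) (hM1 _) (hMdvd _ _)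
      (hx j) _)

end Pool.Agent.STf
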