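import Pool.Agent.Lib.MP_1ef7cf_nt.Bridge2
import Pool.Agent.Lib.MP_1ef7cf_nt.SDefs3
import Pool.Agent.Lib.MP_1ef7cf_nt_f.TW

/-!
# The square root condition for the cyclotomic tower over a 2-extension: the statement
-/

set_option linter.unusedSectionVars false

open NumberField IsDedekindDomain nonZeroDivisors IntermediateField

namespace Pool.Agent.STf

open Pool.Agent.ST Pool.Agent.STb Pool.Agent.STd

section cyc

lemma cc_eq_cos (n : ℕ) : cc n = 2 * Real.cos (2 * Real.pi / 2 ^ (n + 2)) := by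
  induction n with
  | zero =>
    have h : 2 * Real.pi / 2 ^ (0 + 2) = Real.pi / 2 := by norm_num; ring
    rw [h, Real.cos_pi_div_two, mul_zero, cc_zero]
  | succ n ih =>
    have hpos : 0 ≤ Real.cos (2 * Real.pi / 2 ^ (n + 1 + 2)) := by
      apply Real.cos_nonneg_of_mem_Icc
      have h1 : (0 : ℝ) < 2 ^ (n + 1 + 2) := by positivity
      constructor
      · have : 0 ≤ 2 * Real.pi / 2 ^ (n + 1 + 2) := by positivity
        have := Real.pi_pos
        linarith
      · rw [div_le_iff₀ h1]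
        have h2 : (4 : ℝ) ≤ 2 ^ (n + 1 + 2) := by
          have : (2 : ℝ) ^ 2 ≤ 2 ^ (n + 1 + 2) := pow_le_pow_right₀ (by norm_num) (by omega)
          linarith
        nlinarith [Real.pi_pos]
    have h3 : 2 * Real.pi / 2 ^ (n + 2) = 2 * (2 * Real.pi / 2 ^ (n + 1 + 2)) := by
      field_simp
      ring
    rw [cc_succ, ih, h3, Real.cos_two_mul]
    have h4 : 2 + 2 * (2 * Real.cos (2 * Real.pi / 2 ^ (n + 1 + 2)) ^ 2 - 1) =
        (2 * Real.cos (2 * Real.pi / 2 ^ (n + 1 + 2))) ^ 2 := by ring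
    rw [h4, Real.sqrt_sq (by linarith)]

variable {K : Type*} [Field K] [NumberField K] [Algebra K ℝ]

lemma two_mem' (M : IntermediateField K ℝ) : (2 : ℝ) ∈ M := by
  have := M.algebraMap_mem (2 : K)
  rwa [map_ofNat] at this

lemma act_two {M : IntermediateField K ℝ} (σ : M ≃ₐ[K] M) : act σ (2 : ℝ) = 2 := by
  have := act_algebraMap σ (2 : K)
  rwa [map_ofNat] at this

lemma act_zero' {M : IntermediateField K ℝ} (σ : M ≃ₐ[K] M) : act σ (0 : ℝ) = 0 := by
  have := act_algebraMap σ (0 : K)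
  rwa [map_zero] at this

lemma layer_eq (L : IntermediateField K ℝ) (k : ℕ) : StarkRQ.layer L k = twK L (k - 2) := by
  unfold StarkRQ.layer
  have key : ∀ M : IntermediateField K ℝ, ∀ k, Real.cos (2 * Real.pi / 2 ^ k) ∈ M ↔
      cc (k - 2) ∈ M := by
    intro M k
    rcases Nat.lt_or_ge k 2 with hk | hk
    · have h0 : k - 2 = 0 := by omega
      rw [h0, cc_zero]
      simp only [zero_mem, iff_true]
      interval_cases k
      · simp
      · have : 2 * Real.pi / 2 ^ 1 = Real.pi := by ring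
        rw [this, Real.cos_pi]
        exact neg_mem (one_mem _)
    · obtain ⟨j, rfl⟩ := Nat.exists_eq_add_of_le hk
      have h0 : 2 + j - 2 = j := by omega
      rw [h0, cc_eq_cos, add_comm 2 j]
      constructor
      · intro h
        exact mul_mem (two_mem' M) h
      · intro h
        have h2 : Real.cos (2 * Real.pi / 2 ^ (j + 2)) =
            (2 * Real.cos (2 * Real.pi / 2 ^ (j + 2))) / 2 := by ring
        rw [h2]
        exact div_mem h (two_mem' M)
  apply le_antisymm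
  · apply sup_le (le_twK L _)
    rw [adjoin_simple_le_iff, key]
    exact cc_mem_twK L _
  · apply twK_le le_sup_left
    rw [← key]
    exact (le_sup_right : K⟮Real.cos (2 * Real.pi / 2 ^ k)⟯ ≤ _) (mem_adjoin_simple_self K _)

lemma layer_zero (L : IntermediateField K ℝ) : StarkRQ.layer L 0 = L := by
  rw [layer_eq]
  apply le_antisymm
  · exact twK_le le_rfl (by rw [Nat.zero_sub, cc_zero]; exact zero_mem _)
  · exact le_twK L _

lemma layer_mono (L : IntermediateField K ℝ) {k k' : ℕ} (h : k ≤ k') :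
    StarkRQ.layer L k ≤ StarkRQ.layer L k' := by
  rw [layer_eq, layer_eq]
  exact twK_mono L (by omega)

lemma cc_mem_layer (L : IntermediateField K ℝ) {j k : ℕ} (h : j + 2 ≤ k) :
    cc j ∈ StarkRQ.layer L k := by
  rw [layer_eq]
  exact twK_mono L (show j ≤ k - 2 by omega) (cc_mem_twK L j)

/-- the degree -/
lemma finrank_twK (L : IntermediateField K ℝ) (hr : ∃ r : ℕ, Module.finrank K L = 2 ^ r) (j : ℕ)
    [FiniteDimensional K (twK L j)] [IsAbelianGalois K (twK L j)] :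
    ∃ r : ℕ, Module.finrank K (twK L j) = 2 ^ r := by
  have : Fact (Nat.Prime 2) := ⟨Nat.prime_two⟩
  have hgal : IsGalois K (twK L j) := inferInstance
  rw [← IsGalois.card_aut_eq_finrank]
  apply IsPGroup.iff_card.1
  intro σ
  obtain ⟨r, hr⟩ := hr
  have hLj := le_twK L j
  have : FiniteDimensional K L := fd_of_le hLj
  have : IsAbelianGalois K L := isAbelianGalois_of_le hLj
  have h1 : ∀ x ∈ L, act (σ ^ 2 ^ r) x = x := by
    rw [← res_eq_one_iff hLj, map_pow, ← hr, ← IsGalois.card_aut_eq_finrank]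
    exact pow_card_eq_one'
  have h2 : ∀ i, i ≤ j → act ((σ ^ 2 ^ r) ^ 2 ^ i) (cc i) = cc i := by
    intro i
    induction i with
    | zero =>
      intro _
      rw [cc_zero, act_zero']
    | succ i ih =>
      intro hi
      have hm := cc_mem_of_le (cc_mem_twK L j) hi
      have hm' := cc_mem_of_le (cc_mem_twK L j) (show i ≤ j by omega)
      set τ := (σ ^ 2 ^ r) ^ 2 ^ i with hτ
      have h3 : (act τ (cc (i + 1))) ^ 2 = (cc (i + 1)) ^ 2 := by
        rw [← act_pow _ hm, cc_sq, act_add _ (two_mem' _) hm', ih (by omega), act_two]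
      have h4 : (σ ^ 2 ^ r) ^ 2 ^ (i + 1) = τ * τ := by
        rw [hτ, pow_succ, pow_mul, sq]
      rw [h4, act_comp _ _ hm]
      rcases sq_eq_sq_iff_eq_or_eq_neg.1 h3 with h5 | h5
      · rw [h5, h5]
      · rw [h5, act_neg _ hm, h5, neg_neg]
  refine ⟨r + j, ?_⟩
  rw [pow_add, pow_mul]
  apply act_ext
  intro x hx
  rw [act_one_left hx]
  have h3 : twK L j ≤ eqField ((σ ^ 2 ^ r) ^ 2 ^ j) 1 := by
    apply twK_le
    · intro y hy
      refine ⟨hLj hy, ?_⟩
      rw [act_one_left (hLj hy)]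
      have h4 : res hLj ((σ ^ 2 ^ r) ^ 2 ^ j) = 1 := by
        rw [map_pow, (res_eq_one_iff hLj _).2 h1, one_pow]
      exact (res_eq_one_iff hLj _).1 h4 y hy
    · exact ⟨cc_mem_twK L j, by rw [h2 j le_rfl, act_one_left (cc_mem_twK L j)]⟩
  have := (h3 hx).2
  rwa [act_one_left hx] at this

end cyc

section bridge

variable {K : Type*} [Field K] [NumberField K] [Algebra K ℝ] {σ₂ : K →+* ℝ}

/-- the sum over the ray classes with a given restriction to `L` -/
lemma exp_finsum {m : Ideal (𝓞 K)} {H : IntermediateField K ℝ} [FiniteDimensional K H]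
    {Art : RayClassGroup σ₂ m ≃* (H ≃ₐ[K] H)} {Z : RayClassGroup σ₂ m → ℂ → ℂ}
    (hZ : ∀ A, IsPartialZeta σ₂ m A (Z A)) {L : IntermediateField K ℝ} [Normal K L]
    (hL : L ≤ H) (A : RayClassGroup σ₂ m) :
    Complex.exp (-2 * ∑ᶠ B ∈ {B : RayClassGroup σ₂ m |
      ∀ x : H, (x : ℝ) ∈ L → Art B x = Art A x}, deriv (Z B) 0) =
      ((pf hL (ez σ₂ m Art) (res hL (Art A)) : ℝ) : ℂ) := by
  classical
  have hset : {B : RayClassGroup σ₂ m | ∀ x : H, (x : ℝ) ∈ L → Art B x = Art A x} =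
      Art.symm '' (fib hL (res hL (Art A)) : Set (H ≃ₐ[K] H)) := by
    ext B
    simp only [Set.mem_ofPred_eq, Set.mem_image, Finset.mem_coe, mem_fib]
    constructor
    · intro h
      refine ⟨Art B, act_ext _ _ fun x hx => ?_, Art.symm_apply_apply B⟩
      rw [act_res hL _ hx, act_res hL _ hx, act_of_mem _ (hL hx), act_of_mem _ (hL hx),
        h ⟨x, hL hx⟩ hx]
    · rintro ⟨γ, h, rfl⟩ x hx
      rw [MulEquiv.apply_symm_apply]
      have h1 := act_res hL γ hx
      rw [h, act_res hL _ hx, act_coe, act_coe] at h1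
      exact Subtype.ext h1.symm
  rw [hset, finsum_mem_image Art.symm.injective.injOn, finsum_mem_coe_finset, Finset.mul_sum,
    Complex.exp_sum, pf, Complex.ofReal_prod]
  refine Finset.prod_congr rfl fun γ _ => ?_
  rw [ez, ← zd_eq (hZ _), Complex.ofReal_exp]
  push_cast
  rfl

/-- `StarkIn` implies `TD` -/
lemma td_of_starkIn {m : Ideal (𝓞 K)} {L : IntermediateField K ℝ}
    (h : StarkRQ.StarkIn σ₂ m L) : ∃ x, TD σ₂ m L x := by
  obtain ⟨H, Art, Z, hL, η, hr, hZ, hs⟩ := h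
  have hr' := (StarkRQ.isRayClassField_iff σ₂ m H Art).1 hr
  have hfd := hr'.finite
  have hab : IsAbelianGalois K H := hr'.isRCF.abelian
  have habL : IsAbelianGalois K L := isAbelianGalois_of_le hL
  set x : ℝ := (((η 1 : 𝓞 L) : L) : ℝ) with hx
  have hxm : x ∈ L := ((η 1 : 𝓞 L) : L).2
  have hval : ∀ A, (((η A : 𝓞 L) : L) : ℝ) = pf hL (ez σ₂ m Art) (res hL (Art A)) := by
    intro A
    have h1 := (hs.value A).trans (exp_finsum (Art := Art) hZ hL A)
    exact_mod_cast h1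
  have hact : ∀ A, act (Art A) x = (((η A : 𝓞 L) : L) : ℝ) := by
    intro A
    have h1 := hs.galois 1 A
    rw [one_mul] at h1
    rw [← h1, act_of_mem _ (hL hxm)]
    rfl
  have hact' : ∀ γ : L ≃ₐ[K] L, act γ x = pf hL (ez σ₂ m Art) γ := by
    intro γ
    obtain ⟨δ, rfl⟩ := res_surjective hL γ
    obtain ⟨A, rfl⟩ := Art.surjective δ
    rw [act_res hL _ hxm, hact, hval]
  have hint : IsIntegral ℤ x := StarkRQ.unit_int _
  have hint' : IsIntegral ℤ x⁻¹ := by
    have h1 := StarkRQ.unit_int ((η 1)⁻¹)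
    have h2 : ((((((η 1)⁻¹ : (𝓞 L)ˣ) : 𝓞 L) : L)) : ℝ) * x = 1 := by
      have h3 : (((η 1)⁻¹ : (𝓞 L)ˣ) : 𝓞 L) * (η 1 : 𝓞 L) = 1 := Units.inv_mul _
      have h4 : algebraMap (𝓞 L) L (((η 1)⁻¹ : (𝓞 L)ˣ) : 𝓞 L) * algebraMap (𝓞 L) L (η 1 : 𝓞 L) =
          1 := by rw [← map_mul, h3, map_one]
      exact congrArg (fun x : L => (x : ℝ)) h4
    rw [← eq_inv_of_mul_eq_one_left h2]
    exact h1
  refine ⟨x, H, Art, hfd, inferInstance, hL, hr', ⟨hxm, fun σ => ?_, hint, hint', ?_⟩, hact'⟩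
  · rw [hact']
    exact pf_pos hL ez_pos σ
  · intro g hg
    rw [emb_of_mem g hxm]
    exact hs.abs_eq_one 1 g hg

/-- the converse -/
lemma data_of_td (h2 : Module.finrank ℚ K = 2) (hσ : σ₂ ≠ sg1 K) {m : Ideal (𝓞 K)}
    (hm : m ≠ ⊥) (hm1 : m ≠ ⊤) {L : IntermediateField K ℝ} {x : ℝ}
    (h : TD σ₂ m L x) :
    ∃ (H : IntermediateField K ℝ) (Art : StarkRQ.RayClassGroup σ₂ m ≃* (H ≃ₐ[K] H))
      (Z : StarkRQ.RayClassGroup σ₂ m → ℂ → ℂ) (hL : L ≤ H)
      (η : StarkRQ.RayClassGroup σ₂ m → (𝓞 L)ˣ),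
      StarkRQ.IsRayClassField σ₂ m H Art ∧ (∀ A, StarkRQ.IsPartialZeta σ₂ m A (Z A)) ∧
      StarkRQ.IsStarkIn σ₂ m H Art Z L hL η ∧
      ∀ A, ∃ γ : L ≃ₐ[K] L, (((η A : 𝓞 L) : L) : ℝ) = act γ x := by
  obtain ⟨H, Art, hfd, hn, hL, hd⟩ := h
  have habH : IsAbelianGalois K H := hd.rcf.isRCF.abelian
  have habL : IsAbelianGalois K L := isAbelianGalois_of_le hL
  have hfL : FiniteDimensional K L := fd_of_le hL
  choose Z hZ _ using exists_pz (σ₂ := σ₂) h2 hσ hm hm1
  have hmem := hd.pre.mem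
  have hu0 : x ≠ 0 := hd.pre.pos'.ne'
  have hx : ∀ A, ∃ v : (𝓞 L)ˣ, ((v : 𝓞 L) : L) = res hL (Art A) ⟨x, hmem⟩ := by
    intro A
    apply exists_unit
    · intro h0
      have : (⟨x, hmem⟩ : L) = 0 := (res hL (Art A)).injective (by rw [h0, map_zero])
      exact hu0 (congrArg Subtype.val this)
    · have h1 : IsIntegral ℤ (⟨x, hmem⟩ : L) :=
        (isIntegral_algebraMap_iff (algebraMap L ℝ).injective).1 hd.pre.int
      exact h1.map ((res hL (Art A) : L →+* L).toIntAlgHom)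
    · have h1 : IsIntegral ℤ (⟨x⁻¹, inv_mem hmem⟩ : L) :=
        (isIntegral_algebraMap_iff (algebraMap L ℝ).injective).1 hd.pre.int_inv
      have h3 : (res hL (Art A) ⟨x, hmem⟩)⁻¹ = res hL (Art A) ⟨x⁻¹, inv_mem hmem⟩ := by
        rw [← map_inv₀]; rfl
      rw [h3]
      exact h1.map ((res hL (Art A) : L →+* L).toIntAlgHom)
  choose η hη using hx
  have hval : ∀ A, (((η A : 𝓞 L) : L) : ℝ) = act (res hL (Art A)) x := by
    intro A
    rw [act_of_mem _ hmem, hη]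
  have hgal : ∀ A B : RayClassGroup σ₂ m, act (Art B) (((η A : 𝓞 L) : L) : ℝ) =
      (((η (A * B) : 𝓞 L) : L) : ℝ) := by
    intro A B
    rw [hval, hval, act_res hL _ hmem, act_res hL _ hmem, mul_comm A B, map_mul,
      act_comp _ _ (hL hmem)]
  refine ⟨H, Art, Z, hL, η, (StarkRQ.isRayClassField_iff σ₂ m H Art).2 hd.rcf, hZ, ⟨?_, ?_, ?_⟩,
    fun A => ⟨_, hval A⟩⟩
  · intro A
    refine Eq.trans ?_ (exp_finsum (Art := Art) hZ hL A).symm
    have h1 : (((η A : 𝓞 L) : L) : ℝ) = pf hL (ez σ₂ m Art) (res hL (Art A)) := by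
      rw [hval, hd.act]
    exact congrArg _ h1
  · intro A B
    have h1 : act (Art B) (((η A : 𝓞 L) : L) : ℝ) =
        ((Art B (inclusion hL ((η A : 𝓞 L) : L)) : H) : ℝ) := by
      rw [act_of_mem _ (hL ((η A : 𝓞 L) : L).2)]
      rfl
    exact h1.symm.trans (hgal A B)
  · intro A g hg
    rw [hη]
    have h1 := hd.pre.abs (g.comp (res hL (Art A) : L →+* L)) (by
      intro a
      simp only [RingHom.comp_apply]
      have : (res hL (Art A) : L →+* L) (algebraMap K L a) = algebraMap K L a :=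
        (res hL (Art A)).commutes a
      rw [this, ← hg a])
    rw [emb_of_mem _ hmem] at h1
    exact h1

/-- the converse, with the square root condition -/
lemma starkTateIn_of_td (h2 : Module.finrank ℚ K = 2) (hσ : σ₂ ≠ sg1 K) {m : Ideal (𝓞 K)}
    (hm : m ≠ ⊥) (hm1 : m ≠ ⊤) {L : IntermediateField K ℝ} {x : ℝ}
    (h : TD σ₂ m L x) (hab : IsAbelianGalois K (sqrtExt L x)) : StarkRQ.StarkTateIn σ₂ m L := by
  have hab' := h.ab
  have hfd := h.fd
  have hpre := h.pre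
  obtain ⟨H, Art, Z, hL, η, hr, hZ, hs, hη⟩ := data_of_td h2 hσ hm hm1 h
  refine ⟨H, Art, Z, hL, η, hr, hZ, hs, fun A => ?_⟩
  obtain ⟨γ, hγ⟩ := hη A
  have h6 := sqrt_act_mem hpre.mem hpre.pos γ
  rw [hγ]
  exact isAbelianGalois_of_le (sqrtExt_le (le_sqrtExt L _) h6)

lemma starkIn_of_td (h2 : Module.finrank ℚ K = 2) (hσ : σ₂ ≠ sg1 K) {m : Ideal (𝓞 K)}
    (hm : m ≠ ⊥) (hm1 : m ≠ ⊤) {L : IntermediateField K ℝ} {x : ℝ}
    (h : TD σ₂ m L x) : StarkRQ.StarkIn σ₂ m L := by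
  obtain ⟨H, Art, Z, hL, η, hr, hZ, hs, -⟩ := data_of_td h2 hσ hm hm1 h
  exact ⟨H, Art, Z, hL, η, hr, hZ, hs⟩

/-- **The tower theorem.** -/
theorem tower (hK : Module.finrank ℚ K = 2) (hσ : σ₂ ≠ algebraMap K ℝ)
    {m : Ideal (𝓞 K)} (hm : m ≠ ⊥)
    (hm2 : ∀ v : HeightOneSpectrum (𝓞 K), (2 : 𝓞 K) ∈ v.asIdeal → v.asIdeal ∣ m)
    {H : IntermediateField K ℝ} {Art : RayClassGroup σ₂ m ≃* (H ≃ₐ[K] H)}
    (hH : IsRayClassField σ₂ m H Art)
    {L : IntermediateField K ℝ} (hL : L ≤ H) (hr : ∃ r : ℕ, Module.finrank K L = 2 ^ r)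
    (hS : {k : ℕ | StarkRQ.StarkIn σ₂ (m * Ideal.span {2} ^ k) (StarkRQ.layer L k)}.Infinite)
    (k : ℕ) :
    StarkRQ.StarkTateIn σ₂ (m * Ideal.span {2} ^ k) (StarkRQ.layer L k) := by
  have hm1 := ne_top_of_two hm2
  have hM : ∀ k, m * Ideal.span {(2 : 𝓞 K)} ^ k ≠ ⊥ := fun k =>
    mul_ne_bot' hm (pow_ne_bot' span_two_ne_bot _)
  have hMm : ∀ k, m * Ideal.span {(2 : 𝓞 K)} ^ k ≤ m := fun k => Ideal.mul_le_left
  have hM1 : ∀ k, m * Ideal.span {(2 : 𝓞 K)} ^ k ≠ ⊤ := fun k => ne_top_of_le (hMm k) hm1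
  have hMM : ∀ {k k' : ℕ}, k ≤ k' →
      m * Ideal.span {(2 : 𝓞 K)} ^ k' ≤ m * Ideal.span {(2 : 𝓞 K)} ^ k := fun {k k'} h =>
    Ideal.mul_mono_right (Ideal.pow_le_pow_right h)
  have hMdvd : ∀ k k' (v : HeightOneSpectrum (𝓞 K)), v.asIdeal ∣ m * Ideal.span {(2 : 𝓞 K)} ^ k →
      v.asIdeal ∣ m * Ideal.span {(2 : 𝓞 K)} ^ k' := fun k k' v hv =>
    dvd_mul_of_dvd_left (dvd_level hm2 hv) _
  -- the ray class field
  obtain ⟨k', hk'S, hk'⟩ := hS.exists_gt k
  obtain ⟨H', Art', Z', hL', η', hr', -⟩ := hk'S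
  obtain ⟨H₁, Art₁, hr₁, -⟩ := rcf_same (hMM hk'.le) (hMdvd _ _)
    ((StarkRQ.isRayClassField_iff σ₂ _ H' Art').1 hr')
  have hHH : H ≤ H₁ := IsRCF.le (hMm k) (hM k) Set.finite_empty Set.finite_empty hr₁.isRCF hH.isRCF
  have hcm : cc (k - 2) ∈ H₁ := by
    rcases Nat.lt_or_ge k 2 with h | h
    · have h0 : k - 2 = 0 := by omega
      rw [h0, cc_zero]
      exact zero_mem _
    · refine cc_mem_rcf hK hσ ?_ (hM k) hr₁
      have h3 : k - 2 + 2 = k := by omega
      rw [h3, ← Ideal.span_singleton_pow]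
      exact Ideal.mul_le_right
  have hlay : StarkRQ.layer L k ≤ H₁ := by
    rw [layer_eq]
    exact twK_le (hL.trans hHH) hcm
  have hfd₁ := hr₁.finite
  have hab₁ : IsAbelianGalois K H₁ := hr₁.isRCF.abelian
  have hr2 : ∃ r : ℕ, Module.finrank K (StarkRQ.layer L k) = 2 ^ r := by
    rw [layer_eq] at hlay ⊢
    have := fd_of_le hlay
    have := isAbelianGalois_of_le hlay
    exact finrank_twK L hr _
  obtain ⟨X, hX, habX⟩ := sqrt_of_TD hK hσ hM hM1 hMM hMdvd (Λ := StarkRQ.layer L)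
    (fun h => layer_mono L h) (fun h => cc_mem_layer L h)
    (hS.mono fun k hk => td_of_starkIn hk) (k := k) hr2 hr₁ hlay
  exact starkTateIn_of_td hK hσ (hM k) (hM1 k) hX habX

/-- If `H` is the ray class field of modulus `m ∞₂`, the assertion for the field `H` is that of
Q1. -/
theorem starkTate_of_in {m : Ideal (𝓞 K)} (hm : m ≠ ⊥)
    {H : IntermediateField K ℝ} {Art : RayClassGroup σ₂ m ≃* (H ≃ₐ[K] H)}
    (hH : IsRayClassField σ₂ m H Art) (h : StarkRQ.StarkTateIn σ₂ m H) :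
    StarkRQ.StarkTate σ₂ m := by
  obtain ⟨H', Art', Z, hL, η, hr, hZ, hs, hab⟩ := h
  have hr' := (StarkRQ.isRayClassField_iff σ₂ m H' Art').1 hr
  have heq : H' = H := le_antisymm
    (IsRCF.le le_rfl hm Set.finite_empty Set.finite_empty hH.isRCF hr'.isRCF) hL
  subst heq
  refine ⟨H', Art', Z, η, hr, hZ, ⟨?_, ?_, hs.abs_eq_one⟩, hab⟩
  · intro A
    refine (hs.value A).trans ?_
    have hset : {B : StarkRQ.RayClassGroup σ₂ m | ∀ x : H', (x : ℝ) ∈ H' → Art' B x = Art' A x} =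
        {A} := by
      ext B
      simp only [Set.mem_ofPred_eq, Set.mem_singleton_iff]
      constructor
      · intro h3
        exact Art'.injective (AlgEquiv.ext fun x => h3 x x.2)
      · rintro rfl x _
        rfl
    rw [hset, finsum_mem_singleton]
  · intro A B
    exact Subtype.ext (hs.galois A B)

/-- `Stark(K, m)` implies the conditions for all subfields of the ray class field. -/
theorem starkIn_of_stark (h2 : Module.finrank ℚ K = 2) (hσ : σ₂ ≠ sg1 K) {m : Ideal (𝓞 K)}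
    (hm : m ≠ ⊥) (hm1 : m ≠ ⊤) (h : StarkRQ.Stark σ₂ m)
    {H : IntermediateField K ℝ} {Art : RayClassGroup σ₂ m ≃* (H ≃ₐ[K] H)}
    (hH : IsRayClassField σ₂ m H Art) {L : IntermediateField K ℝ} (hL : L ≤ H) :
    StarkRQ.StarkIn σ₂ m L := by
  classical
  obtain ⟨H', Art', u, hd⟩ := ((StarkRQ.stark_iff σ₂ m).1 h).data
  have hfd' := hd.rcf.finite
  have hab' : IsAbelianGalois K H' := hd.rcf.isRCF.abelian
  have hle : H ≤ H' :=
    IsRCF.le le_rfl hm Set.finite_empty Set.finite_empty hd.rcf.isRCF hH.isRCF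
  have habL : IsAbelianGalois K L := isAbelianGalois_of_le (hL.trans hle)
  have hfL : FiniteDimensional K L := fd_of_le (hL.trans hle)
  have hT : TD σ₂ m H' u := by
    refine ⟨H', Art', hfd', inferInstance, le_rfl, hd.rcf,
      ⟨hd.su.mem, hd.su.pos, hd.su.int, hd.su.int_inv, fun g hg => ?_⟩, fun γ => ?_⟩
    · rw [emb_of_mem g hd.su.mem]
      exact hd.su.abs g hg
    · obtain ⟨A, rfl⟩ := Art'.surjective γ
      have h3 : fib (le_rfl : H' ≤ H') (Art' A) = {Art' A} := by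
        ext δ
        rw [mem_fib, Finset.mem_singleton]
        have h4 : res (le_rfl : H' ≤ H') δ = δ := by
          apply act_ext
          intro x hx
          rw [act_res _ _ hx]
        rw [h4]
      rw [hd.act, pf, h3, Finset.prod_singleton, ez_art]
  have hT' := hT.down h2 hσ le_rfl hm hm hm1 (fun _ h => h) hd.rcf (hL.trans hle) (hL.trans hle)
  exact starkIn_of_td h2 hσ hm hm1 hT'

end bridge

end Pool.Agent.STf
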