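import Pool.Agent.Lib.MP_1ef7cf_nt.Mg.G005
import Pool.Agent.Lib.MP_1ef7cf_nt_b.FinalT
import Pool.Agent.Lib.MP_1ef7cf_nt_d.FUL

/-!
# First order ratios instead of units
-/

set_option linter.unusedSectionVars false

open NumberField IsDedekindDomain nonZeroDivisors IntermediateField

namespace Pool.Agent.STf

open Pool.Agent.ST Pool.Agent.STb Pool.Agent.STd

section alg

variable {K : Type*} [Field K] [Algebra K ℝ] {H F L : IntermediateField K ℝ} {σ₂ : K →+* ℝ}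

/-- the product over a fibre -/
noncomputable def pf (h : F ≤ L) [Normal K F] [FiniteDimensional K L] (e : (L ≃ₐ[K] L) → ℝ)
    (τ : F ≃ₐ[K] F) : ℝ := ∏ γ ∈ fib h τ, e γ

lemma pf_pos (h : F ≤ L) [Normal K F] [FiniteDimensional K L] {e : (L ≃ₐ[K] L) → ℝ}
    (he : ∀ γ, 0 < e γ) (τ : F ≃ₐ[K] F) : 0 < pf h e τ := Finset.prod_pos fun γ _ => he γ

/-- transitivity -/
lemma pf_trans (h1 : H ≤ F) (h2 : F ≤ L) [Normal K H] [Normal K F] [FiniteDimensional K F]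
    [FiniteDimensional K L] (e : (L ≃ₐ[K] L) → ℝ) (σ : H ≃ₐ[K] H) :
    pf h1 (pf h2 e) σ = pf (h1.trans h2) e σ := by
  classical
  unfold pf
  have hmap : ∀ γ ∈ fib (h1.trans h2) σ, res h2 γ ∈ fib h1 σ := by
    intro γ hγ
    rw [mem_fib] at hγ ⊢
    rw [res_res, hγ]
  rw [← Finset.prod_fiberwise_of_maps_to hmap]
  refine Finset.prod_congr rfl fun τ hτ => ?_
  refine Finset.prod_congr ?_ fun _ _ => rfl
  ext γ
  rw [Finset.mem_filter, mem_fib, mem_fib]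
  rw [mem_fib] at hτ
  constructor
  · intro h
    exact ⟨by rw [← res_res h1 h2, h, hτ], h⟩
  · exact fun h => h.2

/-- if the function is given by the Galois action -/
lemma pf_act (h : F ≤ L) [Normal K F] [FiniteDimensional K L] {u : ℝ} {e : (L ≃ₐ[K] L) → ℝ}
    (he : ∀ γ, act γ u = e γ) (τ : F ≃ₐ[K] F) : pf h e τ = fibProd h u τ := by
  unfold pf fibProd
  exact Finset.prod_congr rfl fun γ _ => (he γ).symm

/-- translation -/
lemma pf_mul (h : F ≤ L) [Normal K F] [FiniteDimensional K L] (e : (L ≃ₐ[K] L) → ℝ)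
    (δ : L ≃ₐ[K] L) : pf h e (res h δ) = ∏ γ ∈ fib h (1 : F ≃ₐ[K] F), e (δ * γ) :=
  prod_fib_mul h e δ

section ratio

variable [FiniteDimensional K L] [IsAbelianGalois K L] {e : (L ≃ₐ[K] L) → ℝ}

/-- squares -/
lemma ratio_sq_eq (hR : Ratio σ₂ L e) (eprod : ∏ σ, e σ = 1) :
    ∃ C : L ≃ₐ[K] L, ∀ σ, e σ ^ 2 = e σ / e (C * σ) := by
  obtain ⟨C, hC⟩ := hR.exists_C eprod
  refine ⟨C, fun σ => ?_⟩
  have h1 := hC σ
  have h2 := (hR.pos (C * σ)).ne'
  rw [eq_div_iff h2, sq, mul_assoc, h1, mul_one]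

/-- the numbers `e σ` are in an abelian extension -/
lemma ratio_as_sq (hR : Ratio σ₂ L e) (eprod : ∏ σ, e σ = 1) (σ : L ≃ₐ[K] L) :
    AS K (e σ ^ 2) := by
  obtain ⟨C, hC⟩ := ratio_sq_eq hR eprod
  have hmem : ∀ σ, e σ ^ 2 ∈ L := fun σ => by rw [hC]; exact hR.mem _ _
  have hact : ∀ ρ σ, act ρ (e σ ^ 2) = e (ρ * σ) ^ 2 := by
    intro ρ σ
    rw [hC, hR.act, hC, ← mul_assoc ρ C σ, mul_comm' ρ C, mul_assoc]
  have hs : ∀ σ, Real.sqrt (e σ ^ 2) = e σ := fun σ => Real.sqrt_sq (hR.pos σ).le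
  have key : AS K (e 1 ^ 2) := by
    apply as_of_ab (hmem 1) (sq_nonneg _)
    apply isAbelianGalois_sqrtExt (hmem 1)
    · intro σ
      rw [hact]
      exact pow_pos (hR.pos _) 2
    · intro σ
      rw [hact, mul_one, hs, hs]
      exact hR.mem _ _
    · intro σ τ
      rw [hact, hact, mul_one, mul_one, hs, hs, hs, hR.act, hR.act, mul_one, mul_one,
        div_mul_div_cancel₀ (hR.pos τ).ne', div_mul_div_cancel₀ (hR.pos σ).ne', mul_comm' τ σ]
  have h1 : e σ ^ 2 = act σ (e 1 ^ 2) := by rw [hact, mul_one]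
  rw [h1]
  exact key.act (hmem 1) (sq_nonneg _) σ (by rw [← h1]; exact sq_nonneg _)

/-- the subgroup of the `σ` with `√(e σ / e 1)` in an abelian extension -/
def sgR (hR : Ratio σ₂ L e) : Subgroup (L ≃ₐ[K] L) where
  carrier := {σ | AS K (e σ / e 1)}
  one_mem' := by
    change AS K (e 1 / e 1)
    rw [div_self (hR.pos 1).ne']
    exact AS.one K
  mul_mem' := by
    intro σ τ hσ hτ
    change AS K (e (σ * τ) / e 1)
    have h1 : e (σ * τ) / e 1 = act σ (e τ / e 1) * (e σ / e 1) := by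
      rw [hR.act, mul_one, div_mul_div_cancel₀ (hR.pos σ).ne']
    have h2 : 0 < act σ (e τ / e 1) := by
      rw [hR.act]
      exact div_pos (hR.pos _) (hR.pos _)
    rw [h1]
    exact AS.mul h2.le (AS.act (hR.mem _ _) hτ (div_pos (hR.pos τ) (hR.pos 1)).le σ h2.le) hσ
  inv_mem' := by
    intro σ hσ
    change AS K (e σ⁻¹ / e 1)
    have h1 : e σ⁻¹ / e 1 = (act σ⁻¹ (e σ / e 1))⁻¹ := by
      rw [hR.act, inv_mul_cancel, mul_one, inv_div]
    have h2 : 0 < act σ⁻¹ (e σ / e 1) := by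
      rw [hR.act]
      exact div_pos (hR.pos _) (hR.pos _)
    rw [h1]
    exact (AS.act (hR.mem _ _) hσ (div_pos (hR.pos σ) (hR.pos 1)).le σ⁻¹ h2.le).inv

lemma mem_sgR {hR : Ratio σ₂ L e} {σ : L ≃ₐ[K] L} : σ ∈ sgR hR ↔ AS K (e σ / e 1) := Iff.rfl

/-- the norm to a subfield fixed by an involution `τ` with `√(e τ / e 1)` in an abelian
extension. -/
theorem as_pf_of_inv (hFL : F ≤ L) [Normal K F] (hR : Ratio σ₂ L e) (eprod : ∏ σ, e σ = 1)
    {τ : L ≃ₐ[K] L} (hτ : τ ≠ 1) (hτ2 : τ * τ = 1) (hτF : res hFL τ = 1)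
    (hAS : AS K (e τ / e 1)) (σ : F ≃ₐ[K] F) : AS K (pf hFL e σ) := by
  classical
  have pair : ∀ γ : L ≃ₐ[K] L, AS K (e γ * e (γ * τ)) := by
    intro γ
    have h1 : e γ * e (γ * τ) = (e γ) ^ 2 * act γ (e τ / e 1) := by
      rw [hR.act, mul_one]
      have := (hR.pos γ).ne'
      field_simp
    rw [h1]
    have h2 : 0 < act γ (e τ / e 1) := by
      rw [hR.act]
      exact div_pos (hR.pos _) (hR.pos _)
    exact AS.mul (sq_nonneg _) (ratio_as_sq hR eprod γ)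
      (AS.act (hR.mem _ _) hAS (div_pos (hR.pos τ) (hR.pos 1)).le γ h2.le)
  have key : ∀ (n : ℕ) (s : Finset (L ≃ₐ[K] L)), s.card = n → (∀ γ ∈ s, γ * τ ∈ s) →
      AS K (∏ γ ∈ s, e γ) := by
    intro n
    induction n using Nat.strong_induction_on with
    | _ n ih =>
      intro s hs hcl
      rcases s.eq_empty_or_nonempty with rfl | ⟨γ, hγ⟩
      · simpa using AS.one K
      · have hγτ := hcl γ hγ
        have hne : γ * τ ≠ γ := fun h => hτ (mul_eq_left.1 h)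
        have hγ' : γ * τ ∈ s.erase γ := Finset.mem_erase.2 ⟨hne, hγτ⟩
        rw [← Finset.mul_prod_erase s _ hγ, ← Finset.mul_prod_erase (s.erase γ) _ hγ', ← mul_assoc]
        have hc1 := Finset.card_erase_of_mem hγ
        have hc2 := Finset.card_erase_of_mem hγ'
        have hc3 := Finset.card_pos.2 ⟨γ, hγ⟩
        refine AS.mul (mul_pos (hR.pos _) (hR.pos _)).le (pair γ)
          (ih _ ?_ ((s.erase γ).erase (γ * τ)) rfl ?_)
        · omega
        · intro δ hδ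
          rw [Finset.mem_erase, Finset.mem_erase] at hδ ⊢
          obtain ⟨h1, h2, h3⟩ := hδ
          refine ⟨fun h => h2 (mul_right_cancel h), fun h => h1 ?_, hcl δ h3⟩
          rw [← h, mul_assoc, hτ2, mul_one]
  refine key _ (fib hFL σ) rfl ?_
  intro γ hγ
  rw [mem_fib] at hγ ⊢
  rw [map_mul, hτF, mul_one, hγ]

end ratio

/-- a Stark unit given by a product over a fibre -/
structure PF (σ₂ : K →+* ℝ) (h : F ≤ L) [Normal K F] [FiniteDimensional K L]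
    (e : (L ≃ₐ[K] L) → ℝ) : Prop where
  su : IsSU σ₂ F (pf h e 1)
  act : ∀ τ, act τ (pf h e 1) = pf h e τ

lemma PF.of_even (h : F ≤ L) [FiniteDimensional K F] [IsAbelianGalois K F]
    [FiniteDimensional K L] [IsAbelianGalois K L] {e : (L ≃ₐ[K] L) → ℝ} (hR : Ratio σ₂ L e)
    (eprod : ∏ σ, e σ = 1) (heven : Even (fib h (1 : F ≃ₐ[K] F)).card) : PF σ₂ h e := by
  obtain ⟨h1, h2⟩ := even_core σ₂ h hR eprod (e := pf h e) (fun σ => rfl) heven
  exact ⟨h1, h2⟩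

lemma PF.of_act (h : F ≤ L) [FiniteDimensional K F] [IsAbelianGalois K F]
    [FiniteDimensional K L] [IsAbelianGalois K L] {e : (L ≃ₐ[K] L) → ℝ} {u : ℝ}
    (hu : IsSU σ₂ L u) (he : ∀ γ, ST.act γ u = e γ) : PF σ₂ h e := by
  have h1 : ∀ τ, pf h e τ = fibProd h u τ := pf_act h he
  refine ⟨by rw [h1]; exact hu.fibProd h, fun τ => ?_⟩
  obtain ⟨δ, rfl⟩ := res_surjective h τ
  have hmem : fibProd h u 1 ∈ F := fibProd_mem_base h hu.mem 1
  rw [h1, h1, act_res h δ hmem, act_fibProd h hu.mem, mul_one]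

end alg

section rd

variable {K : Type*} [Field K] [NumberField K] [Algebra K ℝ] {σ₂ : K →+* ℝ}

/-- the numbers `exp (-2 ζ'(0, A))`, indexed by the Galois group -/
noncomputable def ez (σ₂ : K →+* ℝ) (m : Ideal (𝓞 K)) {H : IntermediateField K ℝ}
    (Art : RayClassGroup σ₂ m ≃* (H ≃ₐ[K] H)) (σ : H ≃ₐ[K] H) : ℝ :=
  Real.exp (-2 * zd σ₂ m (Art.symm σ))

lemma ez_pos {m : Ideal (𝓞 K)} {H : IntermediateField K ℝ}
    {Art : RayClassGroup σ₂ m ≃* (H ≃ₐ[K] H)} (σ : H ≃ₐ[K] H) : 0 < ez σ₂ m Art σ :=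
  Real.exp_pos _

lemma ez_art {m : Ideal (𝓞 K)} {H : IntermediateField K ℝ}
    {Art : RayClassGroup σ₂ m ≃* (H ≃ₐ[K] H)} (A : RayClassGroup σ₂ m) :
    ez σ₂ m Art (Art A) = Real.exp (-2 * zd σ₂ m A) := by
  unfold ez
  rw [MulEquiv.symm_apply_apply]

lemma ez_prod (h2 : Module.finrank ℚ K = 2) (hσ : σ₂ ≠ sg1 K) {m : Ideal (𝓞 K)}
    (hm : m ≠ ⊥) (hm1 : m ≠ ⊤) {H : IntermediateField K ℝ}
    (Art : RayClassGroup σ₂ m ≃* (H ≃ₐ[K] H)) [FiniteDimensional K H] :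
    ∏ σ, ez σ₂ m Art σ = 1 := prod_exp_zd h2 hσ hm hm1 Art

/-- The data of a ray class field where the conditions 1-3 hold for the ratios. -/
structure RData (σ₂ : K →+* ℝ) (m : Ideal (𝓞 K)) (H : IntermediateField K ℝ)
    (Art : RayClassGroup σ₂ m ≃* (H ≃ₐ[K] H)) : Prop where
  rcf : IsRayClassField σ₂ m H Art
  ratio : Ratio σ₂ H (ez σ₂ m Art)

/-- same prime divisors -/
lemma pf_same (h2 : Module.finrank ℚ K = 2) (hσ : σ₂ ≠ sg1 K) {N n : Ideal (𝓞 K)}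
    (hle : N ≤ n) (hN : N ≠ ⊥) (hn : n ≠ ⊥) (hn1 : n ≠ ⊤)
    (hdvd : ∀ v : HeightOneSpectrum (𝓞 K), v.asIdeal ∣ N → v.asIdeal ∣ n)
    {H H' : IntermediateField K ℝ} {Art : RayClassGroup σ₂ n ≃* (H ≃ₐ[K] H)}
    {Art' : RayClassGroup σ₂ N ≃* (H' ≃ₐ[K] H')}
    (h : IsRayClassField σ₂ n H Art) (h' : IsRayClassField σ₂ N H' Art')
    [Normal K H] [FiniteDimensional K H'] (hHH : H ≤ H') (σ : H ≃ₐ[K] H) :
    pf hHH (ez σ₂ N Art') σ = ez σ₂ n Art σ :=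
  (prod_fib_same h2 hσ hle hN hn hn1 hdvd h h' hHH σ).symm

/-- adding a prime -/
lemma pf_prime (h2 : Module.finrank ℚ K = 2) (hσ : σ₂ ≠ sg1 K) {n n' : Ideal (𝓞 K)}
    (hn : n ≠ ⊥) (hn1 : n ≠ ⊤) {q : PrI K} (hq : ¬ q.asIdeal ∣ n) (hn' : n' = n * q.asIdeal)
    {H H' : IntermediateField K ℝ} {Art : RayClassGroup σ₂ n ≃* (H ≃ₐ[K] H)}
    {Art' : RayClassGroup σ₂ n' ≃* (H' ≃ₐ[K] H')}
    (h : IsRayClassField σ₂ n H Art) (h' : IsRayClassField σ₂ n' H' Art')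
    [Normal K H] [FiniteDimensional K H'] (hle : H ≤ H') (σ : H ≃ₐ[K] H) :
    pf hle (ez σ₂ n' Art') σ =
      ez σ₂ n Art σ / ez σ₂ n Art (σ * (Art (cls σ₂ n (prJ n q hq)))⁻¹) := by
  have hle' : n' ≤ n := by rw [hn']; exact Ideal.mul_le_left
  have hne' : n' ≠ ⊥ := by rw [hn']; exact mul_ne_bot' hn q.ne_bot
  obtain ⟨A, rfl⟩ := Art.surjective σ
  have h1 : pf hle (ez σ₂ n' Art') (Art A) =
      Real.exp (-2 * ∑ A' ∈ ovCls Art Art' hle A, zd σ₂ n' A') := by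
    unfold ovCls pf
    rw [Finset.sum_map, Finset.mul_sum, Real.exp_sum]
    rfl
  rw [h1, zd_relation_prime h2 hσ hle' hn' hn hn1 (mem_ovCls hle' hne' h h' hle A)
    (coe_prJ n q hq), ← map_inv Art, ← map_mul Art, ez_art, ez_art, ← Real.exp_sub]
  congr 1
  ring

/-- Descent of the ratios to a modulus with the same prime divisors. -/
theorem RData.same (h2 : Module.finrank ℚ K = 2) (hσ : σ₂ ≠ sg1 K) {n' n : Ideal (𝓞 K)}
    (hle : n' ≤ n) (hn' : n' ≠ ⊥) (hn : n ≠ ⊥) (hn1 : n ≠ ⊤)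
    (hdvd : ∀ v : HeightOneSpectrum (𝓞 K), v.asIdeal ∣ n' → v.asIdeal ∣ n)
    {H' : IntermediateField K ℝ} {Art' : RayClassGroup σ₂ n' ≃* (H' ≃ₐ[K] H')}
    (hd' : RData σ₂ n' H' Art') :
    ∃ (H : IntermediateField K ℝ) (Art : RayClassGroup σ₂ n ≃* (H ≃ₐ[K] H)),
      RData σ₂ n H Art := by
  obtain ⟨H, Art, hrcf, hHH⟩ := rcf_same hle hdvd hd'.rcf
  refine ⟨H, Art, hrcf, ?_⟩
  have := hrcf.finite
  have := hd'.rcf.finite
  have : IsAbelianGalois K H := hrcf.isRCF.abelian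
  have : IsAbelianGalois K H' := hd'.rcf.isRCF.abelian
  have he : ∀ δ : H' ≃ₐ[K] H', ez σ₂ n Art (res hHH δ) =
      ∏ γ ∈ fib hHH (1 : H ≃ₐ[K] H), ez σ₂ n' Art' (δ * γ) := by
    intro δ
    rw [← pf_same h2 hσ hle hn' hn hn1 hdvd hrcf hd'.rcf hHH, pf_mul]
  have hR := hd'.ratio
  have hquot : ∀ a b : H' ≃ₐ[K] H', ez σ₂ n Art (res hHH a) / ez σ₂ n Art (res hHH b) =
      ∏ γ ∈ fib hHH (1 : H ≃ₐ[K] H), (ez σ₂ n' Art' (a * γ) / ez σ₂ n' Art' (b * γ)) := by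
    intro a b
    rw [he, he, Finset.prod_div_distrib]
  have hmem' : ∀ a b : H' ≃ₐ[K] H', ez σ₂ n Art (res hHH a) / ez σ₂ n Art (res hHH b) ∈ H' := by
    intro a b
    rw [hquot]
    exact prod_mem fun γ _ => hR.mem _ _
  have hact' : ∀ δ a b : H' ≃ₐ[K] H',
      act δ (ez σ₂ n Art (res hHH a) / ez σ₂ n Art (res hHH b)) =
        ez σ₂ n Art (res hHH (δ * a)) / ez σ₂ n Art (res hHH (δ * b)) := by
    intro δ a b
    rw [hquot, hquot, act_prod _ _ _ fun γ _ => hR.mem _ _]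
    refine Finset.prod_congr rfl fun γ _ => ?_
    rw [hR.act, mul_assoc, mul_assoc]
  have hmem : ∀ σ τ, ez σ₂ n Art σ / ez σ₂ n Art τ ∈ H := by
    intro σ τ
    obtain ⟨a, rfl⟩ := res_surjective hHH σ
    obtain ⟨b, rfl⟩ := res_surjective hHH τ
    apply mem_of_fixed hHH (hmem' a b)
    intro γ hγ
    rw [hact', map_mul, map_mul, (res_eq_one_iff hHH γ).2 hγ, one_mul, one_mul]
  refine ⟨fun σ => ez_pos σ, hmem, ?_, ?_, ?_⟩
  · intro ρ σ τ
    obtain ⟨d, rfl⟩ := res_surjective hHH ρ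
    obtain ⟨a, rfl⟩ := res_surjective hHH σ
    obtain ⟨b, rfl⟩ := res_surjective hHH τ
    rw [act_res hHH d (hmem _ _), hact', map_mul, map_mul]
  · intro σ τ
    obtain ⟨a, rfl⟩ := res_surjective hHH σ
    obtain ⟨b, rfl⟩ := res_surjective hHH τ
    rw [hquot]
    exact IsIntegral.prod _ fun γ _ => hR.int _ _
  · intro g hg σ τ
    obtain ⟨a, rfl⟩ := res_surjective hHH σ
    obtain ⟨b, rfl⟩ := res_surjective hHH τ
    obtain ⟨g', hg'⟩ := exists_extend g hHH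
    have hov : Over σ₂ g' := by
      intro a
      rw [← hg a]
      have h3 := hg' (algebraMap K ℝ a) (H.algebraMap_mem a)
      rw [emb_of_mem _ (H.algebraMap_mem a), emb_of_mem _ (H'.algebraMap_mem a)] at h3
      exact h3
    rw [← hg' _ (hmem _ _), hquot, emb_prod g' _ _ fun γ _ => hR.mem _ _, norm_prod]
    exact Finset.prod_eq_one fun γ _ => hR.abs g' hov _ _

end rd

end Pool.Agent.STf
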